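import Mathlib

set_option autoImplicit false

open MeasureTheory

namespace Pool.Agent.P.MP_190226_lc.Sim

variable {X : Type*} [MeasurableSpace X]

/-- Representatives of the elements of the full group of a group `G` of permutations:
bimeasurable bijections `U` of `X` such that `U x` lies in the `G`-orbit of `x` for every `x`. -/
structure FullRep (μ : Measure X) (G : Subgroup (Equiv.Perm X)) where
  /-- the underlying bimeasurable bijection -/
  toFun : X ≃ᵐ X
  orbit : ∀ x, ∃ g ∈ G, toFun x = g x

/-- The uniform distance `d(S, T) = μ {x | S x ≠ T x}`. -/
noncomputable instance (μ : Measure X) (G : Subgroup (Equiv.Perm X)) :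
    PseudoEMetricSpace (FullRep μ G) where
  edist S T := μ {x | S.toFun x ≠ T.toFun x}
  edist_self S := by simp
  edist_comm S T := by simp only [ne_comm]
  edist_triangle S T U := by
    refine le_trans (measure_mono ?_) (measure_union_le _ _)
    intro x hx
    by_contra h
    simp only [Set.mem_union, Set.mem_ofPred_eq, not_or, not_not] at h
    exact hx (h.1.trans h.2)

/-- The full group `[G]` as a metric space: representatives at uniform distance zero, that is
almost everywhere equal ones, are identified. -/
abbrev FullGroup (μ : Measure X) (G : Subgroup (Equiv.Perm X)) := SeparationQuotient (FullRep μ G)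

/-- Simultaneous conjugacy of families in the full group: pairs of families of classes
`([S i]), ([T i])` with `S i = U (T i) U⁻¹` almost everywhere for all `i`, for one `U` in the full
group. -/
def conjRel (μ : Measure X) (G : Subgroup (Equiv.Perm X)) (ι : Type*) :
    Set ((ι → FullGroup μ G) × (ι → FullGroup μ G)) :=
  {p | ∃ (S T : ι → FullRep μ G) (U : FullRep μ G), ∀ i, p.1 i = SeparationQuotient.mk (S i) ∧
    p.2 i = SeparationQuotient.mk (T i) ∧
    (S i).toFun =ᵐ[μ] U.toFun ∘ (T i).toFun ∘ U.toFun.symm}

end Pool.Agent.P.MP_190226_lc.Sim
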