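import Mathlib
import Pool.Agent.P.MP_190226_lc.Good
import Pool.Agent.P.MP_190226_lc.Sim.Defs

/-! Invariant local conjugacies and the exchange lemma. -/

set_option autoImplicit false
set_option linter.unusedSectionVars false

open MeasureTheory Filter Topology Relation
open scoped symmDiff ENNReal

namespace Pool.Agent.P.MP_190226_lc.Sim

variable {X : Type*} [MeasurableSpace X] {μ : Measure X} {G : Subgroup (Equiv.Perm X)}

/-- The orbit equivalence relation. -/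
def Orb (G : Subgroup (Equiv.Perm X)) (x y : X) : Prop := ∃ g ∈ G, y = g x

theorem Orb.refl (x : X) : Orb G x x := ⟨1, one_mem G, rfl⟩

theorem Orb.symm {x y : X} (h : Orb G x y) : Orb G y x := by
  obtain ⟨g, hg, rfl⟩ := h
  exact ⟨g⁻¹, inv_mem hg, by simp⟩

theorem Orb.trans {x y z : X} (h : Orb G x y) (h' : Orb G y z) : Orb G x z := by
  obtain ⟨g, hg, rfl⟩ := h
  obtain ⟨k, hk, rfl⟩ := h'
  exact ⟨k * g, mul_mem hk hg, rfl⟩

theorem FullRep.orb (U : FullRep μ G) (x : X) : Orb G x (U.toFun x) := U.orbit x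

theorem FullRep.orb_symm (U : FullRep μ G) (x : X) : Orb G x (U.toFun.symm x) := by
  have := U.orb (U.toFun.symm x)
  rw [MeasurableEquiv.apply_symm_apply] at this
  exact this.symm

/-- The identity. -/
def FullRep.one : FullRep μ G := ⟨MeasurableEquiv.refl X, Orb.refl⟩

/-- The inverse. -/
def FullRep.inv (U : FullRep μ G) : FullRep μ G := ⟨U.toFun.symm, U.orb_symm⟩

/-- Measurable relations. -/
def MR (R : X → X → Prop) : Prop := MeasurableSet {p : X × X | R p.1 p.2}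

theorem MR.sec {R : X → X → Prop} (h : MR R) {Y : Type*} [MeasurableSpace Y] {f g : Y → X}
    (hf : Measurable f) (hg : Measurable g) : MeasurableSet {y | R (f y) (g y)} :=
  (hf.prodMk hg) h

theorem MR.swap {R : X → X → Prop} (h : MR R) : MR fun y x => R x y :=
  h.sec measurable_snd measurable_fst

/-- Measurable graphs of local conjugacies from `T` to `S`. -/
structure PC (G : Subgroup (Equiv.Perm X)) (T S : ℕ → X → X) (R : X → X → Prop) : Prop where
  orb : ∀ x y, R x y → Orb G x y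
  fn : ∀ x y y', R x y → R x y' → y = y'
  inj : ∀ x x' y, R x y → R x' y → x = x'
  meas : MR R
  eqv : ∀ j x y, R x y → R (T j x) (S j y)

/-- Every map has a left inverse in the sequence. -/
def Sym (T : ℕ → X → X) : Prop := ∀ j, ∃ j', ∀ x, T j' (T j x) = x

variable {T S V : ℕ → X → X} {R Q : X → X → Prop}

theorem PC.swap (h : PC G T S R) : PC G S T fun y x => R x y :=
  ⟨fun _ _ h' => (h.orb _ _ h').symm, fun _ _ _ => h.inj _ _ _, fun _ _ _ => h.fn _ _ _,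
    h.meas.swap, fun j _ _ => h.eqv j _ _⟩

theorem PC.back (h : PC G T S R) (hT : Sym T) {j : ℕ} {x : X} (hx : ∃ y, R (T j x) y) :
    ∃ y, R x y := by
  obtain ⟨j', e⟩ := hT j
  obtain ⟨y, hy⟩ := hx
  exact ⟨_, e x ▸ h.eqv j' _ _ hy⟩

variable [Countable G] (hG : ∀ g ∈ G, MeasurePreserving g μ μ)
include hG

theorem meas_ex {Y : Type*} [MeasurableSpace Y] {f : Y → X} (hf : Measurable f) {P : Y → X → Prop}
    (ho : ∀ y x, P y x → Orb G (f y) x) (hm : MeasurableSet {p : Y × X | P p.1 p.2}) :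
    MeasurableSet {y | ∃ x, P y x} := by
  have : {y | ∃ x, P y x} = ⋃ g : G, {y | P y (g.1 (f y))} := by
    ext y
    simp only [Set.mem_ofPred_eq, Set.mem_iUnion]
    refine ⟨fun ⟨x, hx⟩ => ?_, fun ⟨n, hn⟩ => ⟨_, hn⟩⟩
    obtain ⟨g, hg, rfl⟩ := ho _ _ hx
    exact ⟨⟨g, hg⟩, hx⟩
  rw [this]
  exact MeasurableSet.iUnion fun g => (measurable_id.prodMk ((hG _ g.2).measurable.comp hf)) hm

theorem meas_dom (ho : ∀ x y, R x y → Orb G x y) (hm : MR R) : MeasurableSet {x | ∃ y, R x y} :=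
  meas_ex hG measurable_id ho hm

theorem MR.comp (ho : ∀ x y, R x y → Orb G x y) (h : MR R) (h' : MR Q) :
    MR fun x z => ∃ y, R x y ∧ Q y z :=
  meas_ex hG (P := fun (p : X × X) y => R p.1 y ∧ Q y p.2) measurable_fst
    (fun _ _ h => ho _ _ h.1)
    ((h.sec measurable_fst.fst measurable_snd).inter (h'.sec measurable_snd measurable_fst.snd))

theorem PC.comp (h : PC G T S R) (h' : PC G S V Q) : PC G T V fun x z => ∃ y, R x y ∧ Q y z :=
  ⟨fun _ _ ⟨_, a, b⟩ => (h.orb _ _ a).trans (h'.orb _ _ b),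
    fun _ _ _ ⟨_, a, b⟩ ⟨_, c, d⟩ => h'.fn _ _ _ b (h.fn _ _ _ c a ▸ d),
    fun _ _ _ ⟨_, a, b⟩ ⟨_, c, d⟩ => h.inj _ _ _ a (h'.inj _ _ _ d b ▸ c),
    MR.comp hG h.orb h.meas h'.meas, fun j _ _ ⟨_, a, b⟩ => ⟨_, h.eqv j _ _ a, h'.eqv j _ _ b⟩⟩

/-- The domain of an injective relation along orbits is not bigger than its range. -/
theorem le_of_rel (ho : ∀ x y, R x y → Orb G x y) (hm : MR R)
    (hi : ∀ x x' y, R x y → R x' y → x = x') {A B : Set X} (hA : ∀ x ∈ A, ∃ y, R x y)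
    (hB : ∀ x y, R x y → y ∈ B) : μ A ≤ μ B := by
  obtain ⟨e, he⟩ := exists_surjective_nat G
  let A' : ℕ → Set X := fun n => {x | R x ((e n).1 x)}
  have hd : ∀ n, MeasurableSet (disjointed A' n) := MeasurableSet.disjointed fun n =>
    hm.sec measurable_id (hG _ (e n).2).measurable
  have hU : A ⊆ ⋃ n, disjointed A' n := fun x hx => by
    rw [iUnion_disjointed]
    obtain ⟨y, hy⟩ := hA x hx
    obtain ⟨g, hg, rfl⟩ := ho _ _ hy
    obtain ⟨m, hm⟩ := he ⟨g, hg⟩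
    exact Set.mem_iUnion.2 ⟨m, by simpa [A', hm] using hy⟩
  let B' : ℕ → Set X := fun n => (e n)⁻¹.1 ⁻¹' disjointed A' n
  have hval : ∀ n y, y ∈ B' n → R ((e n)⁻¹.1 y) y := fun n y hy => by
    simpa [A'] using disjointed_subset A' n hy
  have hdis : Pairwise (Function.onFun Disjoint B') := by
    intro m n hmn
    rw [Function.onFun, Set.disjoint_left]
    intro y hm hn
    have h2 := Set.disjoint_left.mp (disjoint_disjointed A' hmn) hm
    rw [hi _ _ _ (hval m y hm) (hval n y hn)] at h2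
    exact h2 hn
  calc μ A ≤ ∑' n, μ (disjointed A' n) := (measure_mono hU).trans (measure_iUnion_le _)
    _ = ∑' n, μ (B' n) := tsum_congr fun n =>
        ((hG _ (e n)⁻¹.2).measure_preimage (hd n).nullMeasurableSet).symm
    _ = μ (⋃ n, B' n) := (measure_iUnion hdis fun n => (hG _ (e n)⁻¹.2).measurable (hd n)).symm
    _ ≤ μ B := measure_mono (Set.iUnion_subset fun n y hy => hB _ _ (hval n y hy))

theorem exists_sat {A : Set X} (hA : MeasurableSet A) (h : ∀ᵐ x ∂μ, x ∈ A) :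
    ∃ A₀ : Set X, MeasurableSet A₀ ∧ (∀ᵐ x ∂μ, x ∈ A₀) ∧ A₀ ⊆ A ∧
      ∀ x y, x ∈ A₀ → Orb G x y → y ∈ A₀ := by
  refine ⟨⋂ g : G, g.1 ⁻¹' A, MeasurableSet.iInter fun g => (hG _ g.2).measurable hA, ?_,
    fun x hx => Set.mem_iInter.mp hx 1, ?_⟩
  · simp only [Set.mem_iInter]
    exact ae_all_iff.mpr fun g => (hG _ g.2).quasiMeasurePreserving.ae h
  · rintro x y hx ⟨k, hk, rfl⟩
    exact Set.mem_iInter.mpr fun g => (Set.mem_iInter.mp hx (g * ⟨k, hk⟩) :)

/-- A functional relation along orbits is the graph of a measurable map. -/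
theorem exists_fun_of_rel (ho : ∀ x y, R x y → Orb G x y) (hm : MR R)
    (hf : ∀ x y y', R x y → R x y' → y = y') (ht : ∀ x, ∃ y, R x y) :
    ∃ f : X → X, Measurable f ∧ ∀ x y, R x y ↔ f x = y := by
  choose f hR using ht
  have h1 : ∀ x y, R x y ↔ f x = y := fun x y => ⟨hf _ _ _ (hR x), fun h => h ▸ hR x⟩
  refine ⟨f, fun s hs => ?_, h1⟩
  have : f ⁻¹' s = {x | ∃ y, R x y ∧ y ∈ s} := by ext x; simp [h1]
  rw [this]
  exact meas_dom hG (fun _ _ h => ho _ _ h.1) (MeasurableSet.inter hm (measurable_snd hs))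

variable [StandardBorelSpace X]

omit hG in
theorem mr_eq {f g : X → X} (hf : Measurable f) (hg : Measurable g) : MR fun x y => f x = g y :=
  measurableSet_eq_fun (hf.comp measurable_fst) (hg.comp measurable_snd)

theorem mr_orb : MR (Orb G) := by
  have : {p : X × X | Orb G p.1 p.2} = ⋃ g : G, {p | g.1 p.1 = id p.2} := by
    ext p; simp [Orb, eq_comm]
  rw [MR, this]
  exact MeasurableSet.iUnion fun g => mr_eq (hG _ g.2).measurable measurable_id

theorem FullRep.mp (U : FullRep μ G) : MeasurePreserving U.toFun μ μ := by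
  have key : ∀ U : FullRep μ G, ∀ s, MeasurableSet s → μ (U.toFun ⁻¹' s) ≤ μ s := fun U s hs =>
    le_of_rel hG (R := fun x y => U.toFun x = y ∧ y ∈ s) (fun x _ h => h.1 ▸ U.orb x)
      ((mr_eq U.toFun.measurable measurable_id).inter (measurable_snd hs))
      (fun _ _ _ h h' => U.toFun.injective (h.1.trans h'.1.symm)) (fun _ hx => ⟨_, rfl, hx⟩)
      fun _ _ h => h.2
  refine ⟨U.toFun.measurable, Measure.ext fun s hs => ?_⟩
  rw [Measure.map_apply U.toFun.measurable hs]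
  refine le_antisymm (key U s hs) ((key U.inv _ (U.toFun.measurable hs)).trans_eq' ?_)
  congr 1; ext x; simp [FullRep.inv]

theorem mr_star (ho : ∀ x y, R x y → Orb G x y) (hm : MR R) : MR (ReflTransGen R) := by
  let it : ℕ → X → X → Prop := fun n => Nat.rec Eq (fun _ P x z => ∃ y, R x y ∧ P y z) n
  have h1 : ∀ n, MR (it n) := fun n => by
    induction n with
    | zero => exact mr_eq measurable_id measurable_id
    | succ n ih => exact MR.comp hG ho hm ih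
  have h2 : ∀ n x z, it n x z → ReflTransGen R x z := fun n => by
    induction n with
    | zero => rintro x z rfl; exact .refl
    | succ n ih => exact fun x z ⟨y, a, b⟩ => .head a (ih _ _ b)
  have : {p : X × X | ReflTransGen R p.1 p.2} = ⋃ n, {p | it n p.1 p.2} := by
    ext ⟨x, z⟩
    simp only [Set.mem_ofPred_eq, Set.mem_iUnion]
    refine ⟨fun h => ?_, fun ⟨n, h⟩ => h2 n _ _ h⟩
    induction h using ReflTransGen.head_induction_on with
    | refl => exact ⟨0, rfl⟩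
    | head a _ ih => exact let ⟨n, h⟩ := ih; ⟨n + 1, _, a, h⟩
  rw [MR, this]
  exact MeasurableSet.iUnion h1

variable [IsFiniteMeasure μ]

/-- The exchange lemma: a local conjugacy extends to one as big as any other. -/
theorem exists_ext (hT : Sym T) (hR : PC G T S R) (hQ : PC G T S Q) :
    ∃ R', PC G T S R' ∧ (∀ x y, R x y → R' x y) ∧
      μ {x | ¬∃ y, R' x y} ≤ μ {x | ¬∃ y, Q x y} := by
  have hs := PC.comp hG hQ hR.swap
  set st : X → X → Prop := fun x z => ∃ y, Q x y ∧ R z y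
  have so : ∀ x a, ReflTransGen st x a → Orb G x a := fun x a h => by
    induction h with
    | refl => exact Orb.refl x
    | tail _ b ih => exact ih.trans (hs.orb _ _ b)
  have sm := mr_star hG hs.orb hs.meas
  have dR := meas_dom hG hR.orb hR.meas
  have dS := meas_dom hG hs.orb hs.meas
  let En : X → X → Prop := fun x a => (¬∃ y, R x y) ∧ ReflTransGen st x a ∧ ¬∃ c, st a c
  have hE : PC G T T En := by
    refine ⟨fun x a h => so _ _ h.2.1, fun x a a' h h' => ?_, fun x x' a h h' => ?_,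
      (measurable_fst dR.compl).inter (MeasurableSet.inter sm (measurable_snd dS.compl)),
      fun j x a h => ⟨mt (hR.back hT) h.1, h.2.1.lift _ (hs.eqv j), mt (hs.back hT) h.2.2⟩⟩
    · rcases ReflTransGen.total_of_right_unique (r := st) hs.fn h.2.1 h'.2.1 with e | e
      · exact e.cases_head.resolve_right fun ⟨c, hc, _⟩ => h.2.2 ⟨c, hc⟩
      · exact (e.cases_head.resolve_right fun ⟨c, hc, _⟩ => h'.2.2 ⟨c, hc⟩).symm
    · rcases ReflTransGen.total_of_right_unique (r := Function.swap st)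
        (fun _ _ _ => hs.inj _ _ _) h.2.1.swap h'.2.1.swap with e | e
      · exact e.cases_head.resolve_right fun ⟨_, ⟨y, _, hy⟩, _⟩ => h.1 ⟨y, hy⟩
      · exact (e.cases_head.resolve_right fun ⟨_, ⟨y, _, hy⟩, _⟩ => h'.1 ⟨y, hy⟩).symm
  have hN := PC.comp hG hE hQ
  refine ⟨fun x y => R x y ∨ ∃ a, En x a ∧ Q a y, ⟨?_, ?_, ?_, MeasurableSet.union hR.meas hN.meas,
    fun j x y h => h.imp (hR.eqv j x y) (hN.eqv j x y)⟩, fun _ _ => Or.inl, ?_⟩
  · exact fun x y h => h.elim (hR.orb x y) (hN.orb x y)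
  · rintro x y y' (h | h) (h' | h')
    exacts [hR.fn _ _ _ h h', let ⟨_, e, _⟩ := h'; absurd ⟨_, h⟩ e.1,
      let ⟨_, e, _⟩ := h; absurd ⟨_, h'⟩ e.1, hN.fn _ _ _ h h']
  · rintro x x' y (h | h) (h' | h')
    exacts [hR.inj _ _ _ h h', let ⟨_, e, q⟩ := h'; absurd ⟨_, _, q, h⟩ e.2.2,
      let ⟨_, e, q⟩ := h; absurd ⟨_, _, q, h'⟩ e.2.2, hN.inj _ _ _ h h']
  let Z : Set X := {x | ∃ a, ReflTransGen st x a ∧ ¬∃ c, st a c}ᶜ
  have hZ : MeasurableSet Z := (meas_dom hG (R := fun x a => ReflTransGen st x a ∧ ¬∃ c, st a c)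
    (fun _ _ h => so _ _ h.1)
    (MeasurableSet.inter sm (measurable_snd dS.compl))).compl
  have hZ0 : μ (Z \ {x | ∃ y, R x y}) = 0 := by
    have h1 : μ Z ≤ μ (Z ∩ {x | ∃ y, R x y}) :=
      le_of_rel hG (R := fun x c => x ∈ Z ∧ st x c) (fun _ _ h => hs.orb _ _ h.2)
        ((measurable_fst hZ).inter hs.meas) (fun _ _ _ h h' => hs.inj _ _ _ h.2 h'.2)
        (fun x hx => by_contra fun hn => hx ⟨x, .refl, fun ⟨c, hc⟩ => hn ⟨c, hx, hc⟩⟩)
        fun x c h => ⟨fun ⟨a, h1, h2⟩ => h.1 ⟨a, .head h.2 h1, h2⟩, let ⟨y, _, e⟩ := h.2; ⟨y, e⟩⟩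
    rw [← measure_inter_add_sdiff (μ := μ) Z dR] at h1
    exact le_antisymm ((ENNReal.add_le_add_iff_left (measure_ne_top μ _)).mp
      (h1.trans_eq (add_zero _).symm)) zero_le
  refine le_trans (measure_mono (t := Z \ {x | ∃ y, R x y} ∪ {x | ∃ a, En x a ∧ ¬∃ y, Q a y})
    fun x hx => ?_) ((measure_union_le _ _).trans ?_)
  · have h1 : ¬∃ y, R x y := fun ⟨y, hy⟩ => hx ⟨y, Or.inl hy⟩
    by_cases h : x ∈ Z
    · exact Or.inl ⟨h, h1⟩
    · obtain ⟨a, ha⟩ := not_not.1 h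
      exact Or.inr ⟨a, ⟨h1, ha⟩, fun ⟨y, hy⟩ => hx ⟨y, Or.inr ⟨a, ⟨h1, ha⟩, hy⟩⟩⟩
  · rw [hZ0, zero_add]
    exact le_of_rel hG (R := fun x a => En x a ∧ ¬∃ y, Q a y)
      (fun _ _ h => hE.orb _ _ h.1) (MeasurableSet.inter hE.meas
      (measurable_snd (meas_dom hG hQ.orb hQ.meas).compl))
      (fun _ _ _ h h' => hE.inj _ _ _ h.1 h'.1) (fun _ h => h) fun _ _ h => h.2

/-- Local conjugacies with almost full domains give one with full domain. -/
theorem exists_full (hT : Sym T) {Q : ℕ → X → X → Prop} (hQ : ∀ k, PC G T S (Q k))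
    (hk : ∀ k : ℕ, μ {x | ¬∃ y, Q k x y} ≤ (k : ℝ≥0∞)⁻¹) :
    ∃ R, PC G T S R ∧ μ {x | ¬∃ y, R x y} = 0 := by
  choose f h1 h2 h3 using fun (k : ℕ) (R : {R // PC G T S R}) => exists_ext hG hT R.2 (hQ k)
  let R : ℕ → {R // PC G T S R} := fun n => Nat.rec ⟨_, hQ 0⟩ (fun k r => ⟨f k r, h1 k r⟩) n
  have hm : Monotone fun n => (R n).1 := monotone_nat_of_le_succ fun n => h2 n (R n)
  refine ⟨fun x y => ∃ n, (R n).1 x y, ⟨fun _ _ ⟨n, h⟩ => (R n).2.orb _ _ h,
    fun _ _ _ ⟨n, h⟩ ⟨m, h'⟩ => (R (max n m)).2.fn _ _ _ (hm (le_max_left _ _) _ _ h)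
      (hm (le_max_right _ _) _ _ h'),
    fun _ _ _ ⟨n, h⟩ ⟨m, h'⟩ => (R (max n m)).2.inj _ _ _ (hm (le_max_left _ _) _ _ h)
      (hm (le_max_right _ _) _ _ h'), ?_, fun j _ _ ⟨n, h⟩ => ⟨n, (R n).2.eqv j _ _ h⟩⟩, ?_⟩
  · rw [MR, Set.ofPred_exists]
    exact MeasurableSet.iUnion fun n => (R n).2.meas
  · refine le_antisymm (ge_of_tendsto' ENNReal.tendsto_inv_nat_nhds_zero fun k => ?_) zero_le
    exact (measure_mono fun x hx ⟨y, hy⟩ => hx ⟨y, k + 1, hy⟩).trans ((h3 k (R k)).trans (hk k))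

/-- A local conjugacy with full domain is given by an element of the full group. -/
theorem exists_rep (hR : PC G T S R) (hfull : μ {x | ¬∃ y, R x y} = 0) :
    ∃ (U : FullRep μ G) (A : Set X), (∀ᵐ x ∂μ, x ∈ A) ∧ (∀ x y, x ∈ A → Orb G x y → y ∈ A) ∧
      (∀ x ∈ A, R x (U.toFun x)) ∧ ∀ x ∉ A, U.toFun x = x := by
  have hA := meas_dom hG hR.orb hR.meas
  have hB := meas_dom hG hR.swap.orb hR.swap.meas
  have hfull' : μ {y | ∃ x, R x y}ᶜ = 0 := by
    have h1 : μ {x | ∃ y, R x y}ᶜ = 0 := hfull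
    rw [measure_compl hA (measure_ne_top _ _), tsub_eq_zero_iff_le] at h1
    rw [measure_compl hB (measure_ne_top _ _), tsub_eq_zero_iff_le]
    exact h1.trans (le_of_rel hG hR.orb hR.meas hR.inj (fun _ h => h) fun x _ h => ⟨x, h⟩)
  obtain ⟨A₀, hA₀, hae, hsub, hsat⟩ := exists_sat hG (hA.inter hB)
    (Eventually.and (show ∀ᵐ x ∂μ, ∃ y, R x y from hfull) hfull')
  let R' : X → X → Prop := fun x y => (x ∈ A₀ ∧ R x y) ∨ (x ∉ A₀ ∧ x = y)
  have ho' : ∀ x y, R' x y → Orb G x y := fun x y h =>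
    h.elim (fun h => hR.orb _ _ h.2) fun h => h.2 ▸ Orb.refl x
  have hm' : MR R' := ((measurable_fst hA₀).inter hR.meas).union
    ((measurable_fst hA₀.compl).inter (mr_eq measurable_id measurable_id))
  obtain ⟨u, hu, huR⟩ := exists_fun_of_rel hG ho' hm' (by
    rintro x y y' (h | h) (h' | h')
    exacts [hR.fn _ _ _ h.2 h'.2, absurd h.1 h'.1, absurd h'.1 h.1, h.2.symm.trans h'.2])
    fun x => by
      by_cases hx : x ∈ A₀
      · exact (hsub hx).1.imp fun y hy => Or.inl ⟨hx, hy⟩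
      · exact ⟨x, Or.inr ⟨hx, rfl⟩⟩
  obtain ⟨v, hv, hvR⟩ := exists_fun_of_rel hG (R := fun y x => R' x y)
    (fun y x h => (ho' _ _ h).symm) hm'.swap (by
    rintro y x x' (h | h) (h' | h')
    exacts [hR.inj _ _ _ h.2 h'.2, absurd (h'.2 ▸ hsat _ _ h.1 (hR.orb _ _ h.2)) h'.1,
      absurd (h.2 ▸ hsat _ _ h'.1 (hR.orb _ _ h'.2)) h.1, h.2.trans h'.2.symm])
    fun y => by
      by_cases hy : y ∈ A₀
      · exact (hsub hy).2.imp fun x hx => Or.inl ⟨hsat _ _ hy (hR.orb _ _ hx).symm, hx⟩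
      · exact ⟨y, Or.inr ⟨hy, rfl⟩⟩
  let e : X ≃ᵐ X :=
    { toFun := u
      invFun := v
      left_inv := fun x => (hvR _ _).1 ((huR _ _).2 rfl)
      right_inv := fun y => (huR _ _).1 ((hvR _ _).2 rfl)
      measurable_toFun := hu
      measurable_invFun := hv }
  exact ⟨⟨e, fun x => ho' _ _ ((huR _ _).2 rfl)⟩, A₀, hae, hsat,
    fun x hx => (((huR x _).2 rfl).resolve_right fun h => h.1 hx).2,
    fun x hx => (huR _ _).1 (Or.inr ⟨hx, rfl⟩)⟩

theorem conj_of_full (hT : ∀ j x, Orb G x (T j x)) (hR : PC G T S R)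
    (hfull : μ {x | ¬∃ y, R x y} = 0) :
    ∃ U : FullRep μ G, ∀ j, S j =ᵐ[μ] U.toFun ∘ T j ∘ U.toFun.symm := by
  obtain ⟨U, A, h1, h2, h3, -⟩ := exists_rep hG hR hfull
  refine ⟨U, fun j => ?_⟩
  filter_upwards [h1] with y hy
  have hx := h2 _ _ hy (U.orb_symm y)
  have := hR.eqv j _ _ (h3 _ hx)
  rw [MeasurableEquiv.apply_symm_apply] at this
  exact hR.fn _ _ _ this (h3 _ (h2 _ _ hx (hT j _)))

/-- The full group is separable. -/
theorem exists_dense_rep : ∃ W : ℕ → FullRep μ G, ∀ (U : FullRep μ G) (ε : ℝ≥0∞), 0 < ε →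
    ∃ n, μ {x | (W n).toFun x ≠ U.toFun x} < ε := by
  classical
  obtain ⟨D, -, hd⟩ := exists_dense_seq' μ
  let A : FullRep μ G → G → Set X := fun U g => {x | U.toFun x = g.1 x}
  have hA : ∀ U g, MeasurableSet (A U g) := fun U g =>
    measurableSet_eq_fun U.toFun.measurable (hG _ g.2).measurable
  let P : Finset (G × ℕ) × ℕ → FullRep μ G → Prop := fun s U =>
    ∀ a ∈ s.1, μ (A U a.1 ∆ D a.2) ≤ (s.2 : ℝ≥0∞)⁻¹
  have : Nonempty (FullRep μ G) := ⟨FullRep.one⟩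
  obtain ⟨e, he⟩ := exists_surjective_nat (Finset (G × ℕ) × ℕ)
  refine ⟨fun n => Classical.epsilon (P (e n)), fun U ε hε => ?_⟩
  have hlim := tendsto_measure_iInter_atTop (μ := μ) (s := fun F : Finset G => (⋃ g ∈ F, A U g)ᶜ)
    (fun F => (Finset.measurableSet_biUnion F fun g _ => hA U g).compl.nullMeasurableSet)
    (fun F F' h => Set.compl_subset_compl.2 (Set.biUnion_subset_biUnion_left h))
    ⟨∅, measure_ne_top _ _⟩
  have hemp : ⋂ F : Finset G, (⋃ g ∈ F, A U g)ᶜ = ∅ := by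
    refine Set.eq_empty_iff_forall_notMem.2 fun x hx => ?_
    obtain ⟨g, hg, e⟩ := U.orb x
    exact Set.mem_iInter.mp hx {⟨g, hg⟩} (by simpa [A] using e)
  rw [hemp, measure_empty] at hlim
  obtain ⟨F, hF⟩ := (hlim.eventually (gt_mem_nhds hε)).exists
  have h2 : Tendsto (fun m : ℕ => μ (⋃ g ∈ F, A U g)ᶜ + ∑ _g ∈ F, ((m : ℝ≥0∞)⁻¹ + (m : ℝ≥0∞)⁻¹))
      atTop (𝓝 (μ (⋃ g ∈ F, A U g)ᶜ + ∑ _g ∈ F, (0 + 0))) :=
    tendsto_const_nhds.add (tendsto_finsetSum _ fun _ _ =>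
      ENNReal.tendsto_inv_nat_nhds_zero.add ENNReal.tendsto_inv_nat_nhds_zero)
  obtain ⟨m, hm⟩ := (h2.eventually (gt_mem_nhds (by simpa using hF))).exists
  choose κ hκ using fun g => hd _ (hA U g) (m : ℝ≥0∞)⁻¹ (by simp)
  obtain ⟨n, hn⟩ := he (F.image fun g => (g, κ g), m)
  have hW : P (e n) (Classical.epsilon (P (e n))) := Classical.epsilon_spec ⟨U, by
    rw [hn]; intro a ha
    obtain ⟨g, -, rfl⟩ := Finset.mem_image.1 ha
    exact (hκ g).le⟩
  refine ⟨n, lt_of_le_of_lt ?_ hm⟩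
  set W := Classical.epsilon (P (e n))
  refine le_trans (measure_mono (t := (⋃ g ∈ F, A U g)ᶜ ∪ ⋃ g ∈ F, A W g ∆ A U g) fun x hx => ?_)
    ((measure_union_le _ _).trans (add_le_add le_rfl ((measure_biUnion_finset_le _ _).trans
      (Finset.sum_le_sum fun g hg => (measure_symmDiff_le _ (D (κ g)) _).trans (add_le_add ?_ ?_)))))
  · by_cases h : x ∈ ⋃ g ∈ F, A U g
    · obtain ⟨g, hg, h1⟩ := Set.mem_iUnion₂.1 h
      exact Or.inr (Set.mem_biUnion hg (Or.inr ⟨h1, fun h2 => hx (h2.trans h1.symm)⟩))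
    · exact Or.inl h
  · rw [hn] at hW
    exact hW (g, κ g) (Finset.mem_image_of_mem _ hg)
  · rw [symmDiff_comm]; exact (hκ g).le

end Pool.Agent.P.MP_190226_lc.Sim
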