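import Mathlib

/-! An optimal stopping value on the tree of words, used as a majority vote. -/

set_option autoImplicit false

open MeasureTheory Filter Topology Finset
open scoped ENNReal

namespace Pool.Agent.P.MP_190226_lc.Sim

variable {Z Z' : Type*}

/-- The weights. -/
noncomputable def wt (j : ℕ) : ℝ≥0∞ := 2⁻¹ ^ (j + 1)

theorem tsum_wt : ∑' j, wt j = 1 := by
  simp only [wt, pow_succ]
  rw [ENNReal.tsum_mul_right, ENNReal.tsum_geometric, ENNReal.one_sub_inv_two, inv_inv]
  exact ENNReal.mul_inv_cancel (by norm_num) (by norm_num)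

theorem sum_wt_le (N : ℕ) : ∑ j ∈ range N, wt j ≤ 1 :=
  (ENNReal.sum_le_tsum _).trans tsum_wt.le

theorem wt_ne (j : ℕ) : wt j ≠ 0 := pow_ne_zero _ (by norm_num)

open Classical in
/-- The value of the game in which a visit to `b` pays three and each step costs one. -/
noncomputable def val (τ : ℕ → Z → Z) (b : Z → Prop) : ℕ → Z → ℝ≥0∞
  | 0, _ => 0
  | N + 1, z => (if b z then 3 else 0) + ∑ j ∈ range N, wt j * val τ b N (τ j z) - 1

variable {τ : ℕ → Z → Z} {b : Z → Prop} {τ' : ℕ → Z' → Z'} {b' : Z' → Prop}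

theorem val_congr (Q : ℕ → Z → Z' → Prop)
    (hQ : ∀ N z z', Q (N + 1) z z' → (b z ↔ b' z') ∧ ∀ j < N, Q N (τ j z) (τ' j z')) (N : ℕ) :
    ∀ z z', Q N z z' → val τ b N z = val τ' b' N z' := by
  induction N with
  | zero => intro z z' _; rfl
  | succ N ih =>
    intro z z' h
    obtain ⟨h1, h2⟩ := hQ N z z' h
    rw [val, val, propext h1, sum_congr rfl fun j hj => by rw [ih _ _ (h2 j (mem_range.1 hj))]]

theorem val_succ (N : ℕ) : ∀ z, val τ b N z ≤ val τ b (N + 1) z := by
  induction N with
  | zero => intro z; exact zero_le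
  | succ N ih =>
    intro z
    rw [val, val, sum_range_succ]
    exact tsub_le_tsub_right (add_le_add le_rfl ((sum_le_sum fun j _ => by
      gcongr; exact ih _).trans le_self_add)) 1

theorem val_mono (z : Z) : Monotone fun N => val τ b N z :=
  monotone_nat_of_le_succ fun N => val_succ N z

theorem val_le (N : ℕ) : ∀ z, val τ b N z ≤ 3 * N := by
  induction N with
  | zero => intro z; exact zero_le
  | succ N ih =>
    intro z
    rw [val, Nat.cast_succ, mul_add, mul_one, add_comm (3 * (N : ℝ≥0∞))]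
    refine tsub_le_self.trans (add_le_add (by split_ifs <;> simp) ?_)
    calc _ ≤ ∑ j ∈ range N, wt j * (3 * N) := sum_le_sum fun j _ => by gcongr; exact ih _
      _ ≤ 1 * (3 * N) := by rw [← sum_mul]; gcongr; exact sum_wt_le N
      _ = _ := one_mul _

/-- The value of the game without time limit. -/
noncomputable def vs (τ : ℕ → Z → Z) (b : Z → Prop) (z : Z) : ℝ≥0∞ := ⨆ N, val τ b N z

open Classical in
theorem vs_step (z : Z) :
    (if b z then 3 else 0) + ∑' j, wt j * vs τ b (τ j z) ≤ vs τ b z + 1 := by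
  rw [ENNReal.tsum_eq_iSup_nat, ENNReal.add_iSup]
  refine iSup_le fun M => ?_
  simp only [vs, ENNReal.mul_iSup]
  rw [ENNReal.finsetSum_iSup_of_monotone fun j _ _ h => by gcongr; exact val_mono _ h,
    ENNReal.add_iSup]
  refine iSup_le fun N => le_trans ?_ (add_le_add (le_iSup _ (max M N + 1)) le_rfl)
  rw [val]
  refine le_trans (add_le_add le_rfl ?_) le_tsub_add
  exact (sum_le_sum fun j _ => by gcongr; exact val_mono _ (le_max_right M N)).trans
    (sum_le_sum_of_subset (range_mono (le_max_left M N)))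

theorem vs_fwd {z : Z} (h : vs τ b z ≠ ∞) (j : ℕ) : vs τ b (τ j z) ≠ ∞ := fun h' => by
  have h1 := (le_add_self.trans (vs_step (τ := τ) (b := b) z))
  have h2 := (ENNReal.le_tsum (f := fun j => wt j * vs τ b (τ j z)) j).trans h1
  simp only [h', ENNReal.mul_top (wt_ne j), top_le_iff, ENNReal.add_eq_top] at h2
  exact h2.elim h (by simp)

/-- Two points which are never both good cannot both have finite value. -/
theorem vs_excl (Q : Z → Z → Prop) (h1 : ∀ z z', Q z z' → b z ∨ b z')
    (h2 : ∀ j z z', Q z z' → Q (τ j z) (τ j z')) {z z' : Z} (h : Q z z') :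
    vs τ b z + vs τ b z' = ∞ := by
  classical
  set m := ⨅ p : {p : Z × Z // Q p.1 p.2}, (vs τ b p.1.1 + vs τ b p.1.2) with hm
  have hle : ∀ z z', Q z z' → m ≤ vs τ b z + vs τ b z' := fun z z' h =>
    iInf_le (fun p : {p : Z × Z // Q p.1 p.2} => vs τ b p.1.1 + vs τ b p.1.2) ⟨(z, z'), h⟩
  have key : 3 + m ≤ m + 2 := by
    conv_rhs => rw [hm, ENNReal.iInf_add]
    refine le_iInf fun ⟨⟨y, y'⟩, hy⟩ => ?_
    have e1 : m ≤ ∑' j, wt j * vs τ b (τ j y) + ∑' j, wt j * vs τ b (τ j y') := by
      rw [← ENNReal.tsum_add, ← one_mul m, ← tsum_wt, ← ENNReal.tsum_mul_right]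
      exact ENNReal.tsum_le_tsum fun j => by
        rw [← mul_add]; gcongr; exact hle _ _ (h2 j _ _ hy)
    have e2 : (3 : ℝ≥0∞) ≤ (if b y then 3 else 0) + (if b y' then 3 else 0) := by
      rcases h1 _ _ hy with h | h <;> simp [h]
    calc 3 + m ≤ _ := add_le_add e2 e1
      _ = _ := add_add_add_comm _ _ _ _
      _ ≤ _ := add_le_add (vs_step y) (vs_step y')
      _ = _ := by rw [add_add_add_comm, one_add_one_eq_two]
  by_contra hn
  rw [add_comm 3 m, ENNReal.add_le_add_iff_left (ne_top_of_le_ne_top hn (hle _ _ h))] at key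
  norm_num at key

variable [MeasurableSpace Z]

theorem meas_val (hτ : ∀ j, Measurable (τ j)) (hb : MeasurableSet {z | b z}) (N : ℕ) :
    Measurable (val τ b N) := by
  classical
  induction N with
  | zero => exact measurable_const
  | succ N ih =>
    exact ((Measurable.ite hb measurable_const measurable_const).add
      (Finset.measurable_sum _ fun j _ => (ih.comp (hτ j)).const_mul _)).sub measurable_const

theorem meas_vs (hτ : ∀ j, Measurable (τ j)) (hb : MeasurableSet {z | b z}) :
    Measurable (vs τ b) := Measurable.iSup fun N => meas_val hτ hb N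

/-- A maximal inequality. -/
theorem measure_val_le {μ : Measure Z} [IsFiniteMeasure μ] (hτ : ∀ j, MeasurePreserving (τ j) μ μ)
    (hb : MeasurableSet {z | b z}) (N : ℕ) : μ {z | val τ b N z ≠ 0} ≤ 3 * μ {z | b z} := by
  classical
  cases N with
  | zero => simp [val]
  | succ N =>
  have hm := meas_val (fun j => (hτ j).measurable) hb
  have hE : MeasurableSet {z | val τ b (N + 1) z ≠ 0} := (hm _ (measurableSet_singleton 0)).compl
  have hfin : ∫⁻ z, val τ b (N + 1) z ∂μ ≠ ∞ := by
    refine ne_top_of_le_ne_top ?_ (lintegral_mono (val_le (N + 1)))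
    rw [lintegral_const]
    exact ENNReal.mul_ne_top (ENNReal.mul_ne_top (by norm_num) (ENNReal.natCast_ne_top _))
      (measure_ne_top _ _)
  have h1 : ∫⁻ z, (val τ b (N + 1) z + {z | val τ b (N + 1) z ≠ 0}.indicator 1 z) ∂μ ≤
      ∫⁻ z, (3 * {z | b z}.indicator 1 z + ∑ j ∈ range N, wt j * val τ b N (τ j z)) ∂μ := by
    refine lintegral_mono fun z => ?_
    by_cases hz : val τ b (N + 1) z = 0
    · simp [hz]
    · rw [Set.indicator_of_mem (show z ∈ {z | val τ b (N + 1) z ≠ 0} from hz), Pi.one_apply]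
      rw [val] at hz ⊢
      rw [tsub_add_cancel_of_le (not_le.1 (mt tsub_eq_zero_iff_le.2 hz)).le]
      by_cases h : b z <;> simp [h]
  have hm' : ∀ j, Measurable fun z => val τ b N (τ j z) := fun j => (hm N).comp (hτ j).measurable
  rw [lintegral_add_left (hm _), lintegral_indicator_one hE,
    lintegral_add_left ((measurable_one.indicator hb).const_mul _),
    lintegral_const_mul _ (measurable_one.indicator hb), lintegral_indicator_one hb,
    lintegral_finsetSum _ fun j _ => (hm' j).const_mul _] at h1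
  have h2 : ∑ j ∈ range N, ∫⁻ z, wt j * val τ b N (τ j z) ∂μ ≤ ∫⁻ z, val τ b (N + 1) z ∂μ := by
    calc _ = ∑ j ∈ range N, wt j * ∫⁻ z, val τ b N z ∂μ := sum_congr rfl fun j _ => by
          rw [lintegral_const_mul _ (hm' j), (hτ j).lintegral_comp (hm N)]
      _ ≤ 1 * ∫⁻ z, val τ b (N + 1) z ∂μ := by
          rw [← sum_mul]
          exact mul_le_mul' (sum_wt_le N) (lintegral_mono (val_succ N))
      _ = _ := one_mul _
  exact (ENNReal.add_le_add_iff_left hfin).1 (h1.trans ((add_le_add le_rfl h2).trans_eq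
    (add_comm _ _)))

end Pool.Agent.P.MP_190226_lc.Sim
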