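import Mathlib
import Pool.Agent.P.MP_190226_lc.Sim.Val
import Pool.Agent.P.MP_190226_lc.Sim.Rel

/-! Simultaneous conjugacy is a countable intersection of countable unions of closed sets. -/

set_option autoImplicit false
set_option linter.unusedSectionVars false

open MeasureTheory Filter Topology
open scoped ENNReal

namespace Pool.Agent.P.MP_190226_lc.Sim

/-- Two systems agree for `N` steps. -/
def Agree {Z : Type*} (τ τ' : ℕ → Z → Z) : ℕ → Z → Prop
  | 0, _ => True
  | N + 1, z => ∀ j < N, τ j z = τ' j z ∧ Agree τ τ' N (τ' j z)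

theorem val_agree {Z : Type*} {τ τ' : ℕ → Z → Z} (b : Z → Prop) {N : ℕ} {z : Z}
    (h : Agree τ τ' N z) : val τ b N z = val τ' b N z :=
  val_congr (fun N z z' => z = z' ∧ Agree τ τ' N z')
    (by rintro N z _ ⟨rfl, h⟩; exact ⟨Iff.rfl, h⟩) N z z ⟨rfl, h⟩

variable {X : Type*} [MeasurableSpace X] {μ : Measure X} {G : Subgroup (Equiv.Perm X)}

/-- The product system. -/
def pr (T S : ℕ → FullRep μ G) (j : ℕ) (z : X × X) : X × X := ((T j).toFun z.1, (S j).toFun z.2)

/-- The points where the vote of `W` is not yet clean after `N` steps. -/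
def Un (W : FullRep μ G) (T S : ℕ → FullRep μ G) (N : ℕ) : Set X :=
  {x | val (pr T S) (fun z => W.toFun z.1 ≠ z.2) N (x, W.toFun x) ≠ 0}

variable [Countable G] [StandardBorelSpace X] [IsFiniteMeasure μ]
  (hG : ∀ g ∈ G, MeasurePreserving g μ μ)
include hG

theorem vote_pc (W : FullRep μ G) (T S : ℕ → FullRep μ G) :
    PC G (fun j => (T j).toFun) (fun j => (S j).toFun)
      fun x y => Orb G x y ∧ vs (pr T S) (fun z => W.toFun z.1 ≠ z.2) (x, y) ≠ ∞ := by
  have key : ∀ z z' : X × X, vs (pr T S) (fun z => W.toFun z.1 ≠ z.2) z ≠ ∞ →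
      vs (pr T S) (fun z => W.toFun z.1 ≠ z.2) z' ≠ ∞ → (z.1 = z'.1 ↔ z.2 = z'.2) := by
    intro z z' h h'
    by_contra hn
    refine ENNReal.add_ne_top.2 ⟨h, h'⟩ (vs_excl (fun z z' => ¬(z.1 = z'.1 ↔ z.2 = z'.2))
      (fun z z' hz => ?_) (fun j z z' hz => ?_) hn)
    · by_contra hc
      simp only [not_or, not_not] at hc
      exact hz (by rw [← hc.1, ← hc.2, W.toFun.injective.eq_iff])
    · simpa only [pr, (T j).toFun.injective.eq_iff, (S j).toFun.injective.eq_iff] using hz
  refine ⟨fun _ _ h => h.1, fun _ _ _ h h' => (key _ _ h.2 h'.2).1 rfl,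
    fun _ _ _ h h' => (key _ _ h.2 h'.2).2 rfl, MeasurableSet.inter (mr_orb hG) ?_,
    fun j x y h => ⟨((T j).orb x).symm.trans (h.1.trans ((S j).orb y)), vs_fwd h.2 j⟩⟩
  exact (meas_vs (τ := pr T S) (fun j => (T j).toFun.measurable.prodMap (S j).toFun.measurable)
    (MeasurableSet.compl (mr_eq W.toFun.measurable measurable_id))
    (measurableSet_singleton ∞)).compl

theorem core {W : ℕ → FullRep μ G} (hW : ∀ (U : FullRep μ G) (ε : ℝ≥0∞), 0 < ε →
    ∃ n, μ {x | (W n).toFun x ≠ U.toFun x} < ε) {T S : ℕ → FullRep μ G}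
    (hT : Sym fun j => (T j).toFun) :
    (∃ U : FullRep μ G, ∀ j, (S j).toFun =ᵐ[μ] U.toFun ∘ (T j).toFun ∘ U.toFun.symm) ↔
      ∀ k : ℕ, ∃ n, ∀ N, μ (Un (W n) T S N) ≤ (k : ℝ≥0∞)⁻¹ := by
  refine ⟨fun ⟨U, hU⟩ k => ?_, fun h => ?_⟩
  · obtain ⟨n, hn⟩ := hW U ((k : ℝ≥0∞)⁻¹ / 4) (ENNReal.div_pos (by simp) (by norm_num))
    obtain ⟨A, -, hae, hsub, hsat⟩ := exists_sat hG
      (A := ⋂ j, {x | (S j).toFun (U.toFun x) = U.toFun ((T j).toFun x)})
      (MeasurableSet.iInter fun j => measurableSet_eq_fun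
        ((S j).toFun.measurable.comp U.toFun.measurable)
        (U.toFun.measurable.comp (T j).toFun.measurable)) (by
      simp only [Set.mem_iInter]
      refine ae_all_iff.2 fun j => ?_
      filter_upwards [(U.mp hG).quasiMeasurePreserving.ae (hU j)] with x hx
      simpa using hx)
    refine ⟨n, fun N => ?_⟩
    have h1 := measure_val_le (fun j => (T j).mp hG) (b := fun x => (W n).toFun x ≠ U.toFun x)
      (measurableSet_eq_fun (W n).toFun.measurable U.toFun.measurable).compl N
    refine le_trans (measure_mono (t := (Aᶜ ∪ {x | (W n).toFun x ≠ U.toFun x}) ∪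
      {x | val (fun j => (T j).toFun) (fun x => (W n).toFun x ≠ U.toFun x) N x ≠ 0})
      fun x hx => ?_) ((measure_union_le _ _).trans ?_)
    · by_contra hc
      simp only [Set.mem_union, Set.mem_compl_iff, Set.mem_ofPred_eq, not_or, not_not] at hc
      refine hx ((val_congr (fun _ z x => x ∈ A ∧ z = (x, U.toFun x)) ?_ N _ x
        ⟨hc.1.1, by rw [hc.1.2]⟩).trans hc.2)
      rintro _ _ y ⟨hy, rfl⟩
      exact ⟨Iff.rfl, fun j _ => ⟨hsat _ _ hy ((T j).orb y),
        Prod.ext rfl (Set.mem_iInter.1 (hsub hy) j)⟩⟩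
    · refine (add_le_add (measure_union_le _ _) h1).trans ?_
      rw [show μ Aᶜ = 0 from hae, zero_add]
      calc _ = 4 * μ {x | (W n).toFun x ≠ U.toFun x} := by ring
        _ ≤ 4 * ((k : ℝ≥0∞)⁻¹ / 4) := by gcongr
        _ = _ := ENNReal.mul_div_cancel (by norm_num) (by norm_num)
  · choose n hn using h
    obtain ⟨R, hR, h0⟩ := exists_full hG hT (fun k => vote_pc hG (W (n k)) T S) fun k => by
      refine le_trans (measure_mono (t := ⋃ N, Un (W (n k)) T S N) fun x hx => ?_) ?_
      · by_contra hc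
        simp only [Un, Set.mem_iUnion, Set.mem_ofPred_eq, not_exists, not_not] at hc
        exact hx ⟨_, (W (n k)).orb x, by simp [vs, hc]⟩
      · rw [Monotone.measure_iUnion]
        · exact iSup_le (hn k)
        · exact fun N M h x hx e => hx (le_antisymm (e ▸ val_mono _ h) zero_le)
    exact conj_of_full hG (fun j => (T j).orb) hR h0

section
variable {Y : Type*} [TopologicalSpace Y] {T S : Y → ℕ → FullRep μ G}
  (hT : ∀ j, Continuous fun p => T p j) (hS : ∀ j, Continuous fun p => S p j)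
include hT hS

theorem tendsto_agree (q : Y) (N : ℕ) : ∀ {A B : X → X}, MeasurePreserving A μ μ →
    MeasurePreserving B μ μ → Tendsto (fun p =>
      μ {x | ¬Agree (pr (T p) (S p)) (pr (T q) (S q)) N (A x, B x)}) (𝓝 q) (𝓝 0) := by
  induction N with
  | zero => intro A B _ _; simp [Agree]
  | succ N ih =>
    intro A B hA hB
    have h1 := tendsto_finsetSum (Finset.range N) fun j _ =>
      ((((hT j).tendsto q).edist (tendsto_const_nhds (x := T q j))).add
        (((hS j).tendsto q).edist (tendsto_const_nhds (x := S q j)))).add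
        (ih (((T q j).mp hG).comp hA) (((S q j).mp hG).comp hB))
    simp only [edist_self, add_zero, Finset.sum_const_zero] at h1
    refine tendsto_of_tendsto_of_tendsto_of_le_of_le tendsto_const_nhds h1 (fun _ => zero_le)
      fun p => ?_
    refine le_trans (measure_mono (t := ⋃ j ∈ Finset.range N,
      (A ⁻¹' {x | (T p j).toFun x ≠ (T q j).toFun x} ∪
        B ⁻¹' {x | (S p j).toFun x ≠ (S q j).toFun x}) ∪
      {x | ¬Agree (pr (T p) (S p)) (pr (T q) (S q)) N
        (((T q j).toFun ∘ A) x, ((S q j).toFun ∘ B) x)}) fun x hx => ?_)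
      ((measure_biUnion_finset_le _ _).trans (Finset.sum_le_sum fun j _ =>
        (measure_union_le _ _).trans (add_le_add ((measure_union_le _ _).trans (add_le_add
          (hA.measure_preimage_le _) (hB.measure_preimage_le _))) le_rfl)))
    by_contra hc
    simp only [Set.mem_iUnion, Set.mem_union, Set.mem_preimage, Set.mem_ofPred_eq, not_exists,
      not_or, not_not, Finset.mem_range] at hc
    exact hx fun j hj => ⟨Prod.ext (hc j hj).1.1 (hc j hj).1.2, (hc j hj).2⟩

theorem isClosed_Un (W : FullRep μ G) (N : ℕ) (r : ℝ≥0∞) :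
    IsClosed {p | μ (Un W (T p) (S p) N) ≤ r} := by
  refine isClosed_iff_frequently.2 fun q hq => ?_
  have h1 := (tendsto_const_nhds (x := r)).add
    (tendsto_agree hG hT hS q N (MeasurePreserving.id μ) (W.mp hG))
  rw [add_zero] at h1
  refine ge_of_tendsto_of_frequently h1 (hq.mono fun p hp => ?_)
  refine le_trans (measure_mono fun x hx => ?_)
    ((measure_union_le _ _).trans (add_le_add hp le_rfl))
  by_contra hc
  simp only [Set.mem_union, Set.mem_ofPred_eq, not_or, not_not] at hc
  exact hc.1 fun e => hx ((val_agree _ hc.2).symm.trans e)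

end

theorem continuous_inv : Continuous (FullRep.inv : FullRep μ G → FullRep μ G) := by
  refine Isometry.continuous fun U V => ?_
  refine (((U.mp hG).measure_preimage (measurableSet_eq_fun U.inv.toFun.measurable
    V.inv.toFun.measurable).compl.nullMeasurableSet).symm.trans ?_)
  refine congrArg μ (Set.ext fun x => not_congr ?_)
  simp [FullRep.inv, MeasurableEquiv.eq_symm_apply, eq_comm]

omit hG in
/-- A family together with its inverses and the identity. -/
def ext {ι : Type*} (S : ι → FullRep μ G) : Option (ι × Bool) → FullRep μ G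
  | none => FullRep.one
  | some (i, true) => S i
  | some (i, false) => (S i).inv

theorem pre {ι : Type*} [Countable ι] :
    ∃ F : ℕ → ℕ → Set ((ι → FullRep μ G) × (ι → FullRep μ G)), (∀ k n, IsClosed (F k n)) ∧
      ∀ p, (∃ U : FullRep μ G, ∀ i,
        (p.1 i).toFun =ᵐ[μ] U.toFun ∘ (p.2 i).toFun ∘ U.toFun.symm) ↔ p ∈ ⋂ k, ⋃ n, F k n := by
  obtain ⟨W, hW⟩ := exists_dense_rep hG
  obtain ⟨e, he⟩ := exists_surjective_nat (Option (ι × Bool))
  have hc : ∀ a, Continuous fun S : ι → FullRep μ G => ext S a := by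
    rintro (_ | ⟨i, _ | _⟩)
    exacts [continuous_const, (continuous_inv hG).comp (continuous_apply i), continuous_apply i]
  refine ⟨fun k n => ⋂ N, {p | μ (Un (W n) (fun j => ext p.2 (e j)) (fun j => ext p.1 (e j)) N) ≤
    (k : ℝ≥0∞)⁻¹}, fun k n => isClosed_iInter fun N => isClosed_Un hG
      (fun j => (hc _).comp continuous_snd) (fun j => (hc _).comp continuous_fst) _ _ _,
    fun p => ?_⟩
  simp only [Set.mem_iInter, Set.mem_iUnion, Set.mem_ofPred_eq]
  rw [← core hG hW]
  · refine exists_congr fun U => ⟨fun h j => ?_, fun h i => ?_⟩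
    · rcases e j with _ | ⟨i, _ | _⟩
      · exact Eventually.of_forall fun x => (U.toFun.apply_symm_apply x).symm
      · filter_upwards [((p.1 i).inv.mp hG).quasiMeasurePreserving.ae (h i)] with x hx
        simp only [FullRep.inv, MeasurableEquiv.apply_symm_apply, Function.comp_apply] at hx
        simp only [ext, FullRep.inv, Function.comp_apply]
        conv_rhs => rw [hx]
        simp
      · exact h i
    · obtain ⟨j, hj⟩ := he (some (i, true))
      simpa only [hj, ext] using h j
  · intro j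
    have : ∃ a, ∀ x, (ext p.2 a).toFun ((ext p.2 (e j)).toFun x) = x := by
      rcases e j with _ | ⟨i, _ | _⟩
      exacts [⟨none, fun _ => rfl⟩, ⟨some (i, true), (p.2 i).toFun.apply_symm_apply⟩,
        ⟨some (i, false), (p.2 i).toFun.symm_apply_apply⟩]
    obtain ⟨a, ha⟩ := this
    obtain ⟨j', rfl⟩ := he a
    exact ⟨j', ha⟩

theorem conjRel_eq (ι : Type*) [Countable ι] :
    ∃ F : ℕ → ℕ → Set ((ι → FullGroup μ G) × (ι → FullGroup μ G)), (∀ k n, IsClosed (F k n)) ∧
      conjRel μ G ι = ⋂ k, ⋃ n, F k n := by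
  let m : (ι → FullRep μ G) → ι → FullGroup μ G := Pi.map fun _ => SeparationQuotient.mk
  have m1 : IsInducing m := .piMap fun _ => SeparationQuotient.isInducing_mk
  have m2 : Function.Surjective m := .piMap fun _ => SeparationQuotient.surjective_mk
  obtain ⟨F, h1, h2⟩ := pre hG (ι := ι)
  choose E hE hEq using fun k n => (m1.prodMap m1).isClosed_iff.1 (h1 k n)
  refine ⟨E, hE, (m2.prodMap m2).preimage_injective ?_⟩
  simp only [Set.preimage_iInter, Set.preimage_iUnion, hEq]
  ext p
  rw [← h2]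
  have hae : ∀ S S' : FullRep μ G, (SeparationQuotient.mk S : FullGroup μ G) =
      SeparationQuotient.mk S' → S.toFun =ᵐ[μ] S'.toFun := fun S S' h =>
    EMetric.inseparable_iff.mp (SeparationQuotient.mk_eq_mk.mp h)
  refine ⟨fun ⟨S, T, U, h⟩ => ⟨U, fun i => (hae _ _ (h i).1).trans ((h i).2.2.trans ?_)⟩,
    fun ⟨U, hU⟩ => ⟨p.1, p.2, U, fun i => ⟨rfl, rfl, hU i⟩⟩⟩
  filter_upwards [(U.inv.mp hG).quasiMeasurePreserving.ae (hae _ _ (h i).2.1)] with x hx
  exact congrArg U.toFun hx.symm

end Pool.Agent.P.MP_190226_lc.Sim
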