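import Mathlib
import Pool.Agent.P.MP_190226_lc.Sim.Main

/-! A lower bound for the complexity of conjugacy classes, from combinatorial data. -/

set_option autoImplicit false
set_option linter.unusedSectionVars false

open MeasureTheory Filter Topology Function
open scoped ENNReal

namespace Pool.Agent.P.MP_190226_lc.Sim

/-- Matrices over the field with two elements. -/
abbrev YY := ℕ → ℕ → ZMod 2

theorem baire_lemma {C : Set YY} (h1 : ∀ y : YY, (∀ n, (support (y n)).Finite) → y ∈ C)
    {F : ℕ → ℕ → Set YY} (hF : ∀ n k, IsClosed (F n k)) (h2 : ∀ n, C ⊆ ⋃ k, F n k)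
    (h3 : ∀ n k m, ∀ y ∈ F n k, y + Pi.single n (Pi.single m 1) ∉ F n k)
    {H : ℕ → Set YY} (hH : ∀ j, IsGδ (H j)) : C ≠ ⋃ j, H j := by
  rintro rfl
  obtain ⟨e, he⟩ := exists_surjective_nat (ℕ →₀ ZMod 2)
  have ec : ∀ i, Continuous fun q : ℕ → ℕ => ⇑(e (q i)) := fun i =>
    (continuous_of_discreteTopology (f := fun a => ⇑(e a))).comp (continuous_apply i)
  let ι : (ℕ → ℕ) → YY := fun q n => e (q n)
  obtain ⟨j, p, hp⟩ := nonempty_interior_of_iUnion_of_closed (f := fun j => closure (ι ⁻¹' H j))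
    (fun _ => isClosed_closure) (Set.eq_univ_of_forall fun q => by
      obtain ⟨j, hj⟩ := Set.mem_iUnion.1 (h1 (ι q) fun n => (e (q n)).hasFiniteSupport)
      exact Set.mem_iUnion.2 ⟨j, subset_closure hj⟩)
  obtain ⟨_, ⟨x, n, rfl⟩, -, hO⟩ := (PiNat.isTopologicalBasis_cylinders fun _ => ℕ).mem_nhds_iff.1
    (mem_interior_iff_mem_nhds.1 hp)
  let κ : YY → YY := fun z i => if i < n then e (x i) else z i
  have κc : Continuous κ := continuous_pi fun i => by
    by_cases h : i < n <;> simp only [κ, h, if_true, if_false] <;> fun_prop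
  have d1 : Dense (κ ⁻¹' H j) := fun z => by
    let φ : (ℕ → ℕ) → YY := fun q i => if i < n then z i else e (q i)
    have φc : Continuous φ := continuous_pi fun i => by
      by_cases h : i < n <;> simp only [φ, h, if_true, if_false]
      exacts [continuous_const, ec i]
    have h4 : ∀ q ∈ PiNat.cylinder x n, φ q ∈ closure (κ ⁻¹' H j) := fun q hq =>
      map_mem_closure φc ((PiNat.isOpen_cylinder _ x n).inter_closure ⟨hq, hO hq⟩) fun q' hq' => by
        have : κ (φ q') = ι q' := funext fun i => by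
          by_cases h : i < n <;> simp only [κ, φ, ι, h, if_true, if_false]
          rw [hq'.1 i h]
        exact Set.mem_preimage.2 (this ▸ hq'.2)
    choose u hu using fun L i => he (Finsupp.onFinset (Finset.range L)
      (fun m => if m < L then z i m else 0) fun m hm => by by_contra h; simp_all)
    refine isClosed_closure.mem_of_tendsto (f := fun L => φ fun i => if i < n then x i else u L i)
      (b := atTop) (tendsto_pi_nhds.2 fun i => tendsto_pi_nhds.2 fun m =>
        tendsto_const_nhds.congr' ?_) (Eventually.of_forall fun L => h4 _ fun i hi => if_pos hi)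
    filter_upwards [eventually_gt_atTop m] with L hL
    by_cases h : i < n <;> simp [φ, h, hu, hL]
  have d2 : ∀ k, Dense (κ ⁻¹' F n k)ᶜ := fun k z => by
    by_cases hz : κ z ∈ F n k
    · refine mem_closure_of_tendsto (f := fun m => z + Pi.single n (Pi.single m 1)) (b := atTop)
        (tendsto_pi_nhds.2 fun i => tendsto_pi_nhds.2 fun m => tendsto_const_nhds.congr' ?_)
        (Eventually.of_forall fun m h => h3 n k m _ hz ?_)
      · filter_upwards [eventually_gt_atTop m] with L hL
        by_cases h : i = n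
        · simp [h, hL.ne]
        · simp [h]
      · convert Set.mem_preimage.1 h using 1
        funext i
        by_cases h : i < n
        · simp [κ, h, h.ne]
        · simp [κ, h]
    · exact subset_closure hz
  have o2 : ∀ k, IsOpen (κ ⁻¹' F n k)ᶜ := fun k => ((hF n k).preimage κc).isOpen_compl
  obtain ⟨y, y1, y2⟩ := (Dense.inter_of_Gδ ((hH j).preimage κc) (.iInter_of_isOpen o2) d1
    (dense_iInter_of_isOpen o2 d2)).nonempty
  obtain ⟨k, hk⟩ := Set.mem_iUnion.1 (h2 n (Set.mem_iUnion.2 ⟨j, y1⟩))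
  exact Set.mem_iInter.1 y2 k hk

theorem meas_finsum : Measurable fun κ : ℕ → ZMod 2 => ∑ᶠ m, κ m :=
  (measurable_const (a := 0)).measurable_of_countable_ne
    ((Set.countable_range fun f : ℕ →₀ ZMod 2 => ⇑f).mono fun κ hκ => by
      by_contra h
      exact hκ (finsum_of_infinite_support fun hf =>
        h ⟨Finsupp.ofSupportFinite κ hf, rfl⟩).symm)

variable {X : Type*} [MeasurableSpace X] {μ : Measure X} {G : Subgroup (Equiv.Perm X)}

/-- A power of an involution. -/
def pw2 (σ : X → X) (t : ZMod 2) (x : X) : X := if t = 0 then x else σ x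

theorem pw2_add {σ : X → X} (h : ∀ x, σ (σ x) = x) (s t : ZMod 2) (x : X) :
    pw2 σ (s + t) x = pw2 σ s (pw2 σ t x) := by
  have : ∀ s t : ZMod 2, s + t = 0 ↔ (s = 0 ↔ t = 0) := by decide
  by_cases hs : s = 0 <;> by_cases ht : t = 0 <;> simp [pw2, this, hs, ht, h]

theorem pw2_fix {σ : X → X} {s t : ZMod 2} {x : X} (h : pw2 σ s x = pw2 σ (s + t) x) (ht : t ≠ 0) :
    σ x = x := by
  have : ∀ s t : ZMod 2, s + t = 0 ↔ (s = 0 ↔ t = 0) := by decide
  by_cases hs : s = 0 <;> simp only [pw2, this, hs, ht, iff_false, not_true, if_true,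
    if_false] at h
  exacts [h.symm, h]

theorem pw2_inv {σ : X → X} {β : Type*} {f : X → β} (h : ∀ x, f (σ x) = f x) (s : ZMod 2) (x : X) :
    f (pw2 σ s x) = f x := by unfold pw2; split_ifs <;> simp [h]

theorem pw2_comm {σ T : X → X} (h : ∀ x, σ (T x) = T (σ x)) (s : ZMod 2) (x : X) :
    pw2 σ s (T x) = T (pw2 σ s x) := by unfold pw2; split_ifs <;> simp [h]

/-- The composition. -/
def FullRep.mul (S T : FullRep μ G) : FullRep μ G :=
  ⟨T.toFun.trans S.toFun, fun x => (T.orb x).trans (S.orb _)⟩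

/-- The powers. -/
def FullRep.pow (S : FullRep μ G) : ℕ → FullRep μ G
  | 0 => FullRep.one
  | N + 1 => S.mul (S.pow N)

theorem pow_apply (S : FullRep μ G) (N : ℕ) (x : X) : (S.pow N).toFun x = S.toFun^[N] x := by
  induction N with
  | zero => rfl
  | succ N ih => rw [iterate_succ_apply', ← ih]; rfl

/-- An involution applied on an invariant set only. -/
noncomputable def tw (σ : FullRep μ G) (h : ∀ x, σ.toFun (σ.toFun x) = x) (ε : X → ZMod 2)
    (h1 : Measurable ε) (h2 : ∀ x, ε (σ.toFun x) = ε x) : FullRep μ G :=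
  have hi : Involutive fun x => pw2 σ.toFun (ε x) x := fun x => by
    simp only [pw2_inv h2, ← pw2_add h, CharTwo.add_self_eq_zero]; rfl
  have hm : Measurable fun x => pw2 σ.toFun (ε x) x :=
    Measurable.ite (h1 (measurableSet_singleton 0)) measurable_id σ.toFun.measurable
  ⟨⟨hi.toPerm, hm, hm⟩, fun x => by
    change Orb G x (pw2 _ _ _)
    unfold pw2
    split_ifs
    exacts [Orb.refl x, σ.orb x]⟩

variable [Countable G] [StandardBorelSpace X] [IsFiniteMeasure μ]
  (hG : ∀ g ∈ G, MeasurePreserving g μ μ)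
include hG

theorem edist_mul_le (A B A' B' : FullRep μ G) :
    edist (A.mul B) (A'.mul B') ≤ edist A A' + edist B B' := by
  refine le_trans (measure_mono (t := B.toFun ⁻¹' {x | A.toFun x ≠ A'.toFun x} ∪
    {x | B.toFun x ≠ B'.toFun x}) fun x hx => ?_) ((measure_union_le _ _).trans
      (add_le_add ((B.mp hG).measure_preimage_le _) le_rfl))
  by_contra hc
  simp only [Set.mem_union, Set.mem_preimage, Set.mem_ofPred_eq, not_or, not_not] at hc
  exact hx (hc.1.trans (congrArg A'.toFun hc.2))

theorem edist_pow_le (A B : FullRep μ G) (N : ℕ) : edist (A.pow N) (B.pow N) ≤ N * edist A B := by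
  induction N with
  | zero => simp [FullRep.pow]
  | succ N ih =>
    rw [Nat.cast_succ, add_mul, one_mul, add_comm _ (edist A B)]
    exact (edist_mul_le hG _ _ _ _).trans (add_le_add le_rfl ih)

theorem edist_inv_le (U V : FullRep μ G) : edist U.inv V.inv ≤ edist U V := by
  refine le_trans (measure_mono fun x hx => ?_) ((U.inv.mp hG).measure_preimage_le _)
  exact fun h => hx (V.toFun.eq_symm_apply.2 (h.symm.trans (U.toFun.apply_symm_apply x)))

theorem not_gdelta_sigma (T σ : FullRep μ G) (ρ : X → ℕ) (w : ℕ → X → ZMod 2) (hρ : Measurable ρ)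
    (hw : ∀ m, Measurable (w m)) (σσ : ∀ x, σ.toFun (σ.toFun x) = x)
    (σT : ∀ x, σ.toFun (T.toFun x) = T.toFun (σ.toFun x)) (ρT : ∀ x, ρ (T.toFun x) = ρ x)
    (ρσ : ∀ x, ρ (σ.toFun x) = ρ x) (wσ : ∀ m x, w m (σ.toFun x) = w m x)
    (hs : ∑' m, μ {x | w m (T.toFun x) ≠ w m x} ≠ ∞)
    (hl : ∀ n, ∃ s : ℝ≥0∞, 0 < s ∧ ∀ m, ∃ N, (s + s) + (s + s) <
      μ {x | ρ x = n ∧ σ.toFun x ≠ x ∧ w m (T.toFun^[N] x) ≠ w m x})
    {H : ℕ → Set (FullRep μ G)} (hH : ∀ j, IsGδ (H j)) :
    {S : FullRep μ G | ∃ U : FullRep μ G, S.toFun =ᵐ[μ] U.toFun ∘ T.toFun ∘ U.toFun.symm} ≠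
      ⋃ j, H j := by
  intro hEq
  let k : ℕ → X → ZMod 2 := fun m x => w m (T.toFun x) - w m x
  have hk : ∀ m, Measurable (k m) := fun m => ((hw m).comp T.toFun.measurable).sub (hw m)
  have kf : ∀ᵐ x ∂μ, (support fun m => k m x).Finite := by
    filter_upwards [ae_finite_setOfPred_mem hs] with x hx
    exact hx.subset fun m hm => sub_ne_zero.1 hm
  have mf : ∀ (y : YY) (v : ℕ → X → ZMod 2), (∀ m, Measurable (v m)) →
      Measurable fun x => ∑ᶠ m, y (ρ x) m * v m x := fun y v hv =>
    meas_finsum.comp (measurable_pi_lambda _ fun m =>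
      ((measurable_from_top (f := fun n => y n m)).comp hρ).mul (hv m))
  let a : YY → X → ZMod 2 := fun y x => ∑ᶠ m, y (ρ x) m * k m x
  have aσ : ∀ y x, a y (σ.toFun x) = a y x := fun y x => by simp only [a, k, ρσ, ← σT, wσ]
  let S : YY → FullRep μ G := fun y => T.mul (tw σ σσ (a y) (mf y k hk) (aσ y))
  have Sx : ∀ y x, (S y).toFun x = T.toFun (pw2 σ.toFun (a y x) x) := fun _ _ => rfl
  have Sit : ∀ y N x, (S y).toFun^[N] x =
      pw2 σ.toFun (∑ i ∈ Finset.range N, a y (T.toFun^[i] x)) (T.toFun^[N] x) := fun y N x => by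
    induction N with
    | zero => rfl
    | succ N ih =>
      rw [iterate_succ_apply', ih, Sx, pw2_inv (aσ y), ← pw2_add σσ, ← pw2_comm σT,
        Finset.sum_range_succ_comm, iterate_succ_apply']
  have Sc : Continuous S := by
    refine continuous_iff_continuousAt.2 fun y => EMetric.tendsto_nhds.2 fun ε hε => ?_
    have hlim := tendsto_measure_iInter_atTop (μ := μ)
      (s := fun L => {x | L ≤ ρ x ∨ ∃ m, L ≤ m ∧ k m x ≠ 0})
      (fun L => (show MeasurableSet _ by measurability).nullMeasurableSet)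
      (fun L L' h x hx => hx.imp h.trans fun ⟨m, h1, h2⟩ => ⟨m, h.trans h1, h2⟩)
      ⟨0, measure_ne_top _ _⟩
    rw [measure_mono_null (t := {x | ¬(support fun m => k m x).Finite}) (fun x hx hf => by
      obtain ⟨B, hB⟩ := hf.bddAbove
      rcases Set.mem_iInter.1 hx (max (ρ x) B + 1) with h | ⟨m, h1, h2⟩
      · omega
      · have := hB h2; omega) kf] at hlim
    obtain ⟨L, hL⟩ := (hlim.eventually (gt_mem_nhds hε)).exists
    have hn : ∀ᶠ y' in 𝓝 y, ∀ i ∈ Finset.range L, ∀ m ∈ Finset.range L, y' i m = y i m :=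
      (Finset.eventually_all _).2 fun i _ => (Finset.eventually_all _).2 fun m _ =>
        (((continuous_apply m).comp (continuous_apply i)).tendsto y).eventually
          (p := fun t => t = y i m) (by rw [nhds_discrete]; exact rfl)
    filter_upwards [hn] with y' hy'
    refine lt_of_le_of_lt (measure_mono fun x hx => ?_) hL
    by_contra hc
    simp only [Set.mem_ofPred_eq, not_or, not_exists, not_and, not_not, not_le] at hc
    refine hx ?_
    rw [Sx, Sx, show a y' x = a y x from finsum_congr fun m => ?_]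
    by_cases hm : m < L
    · rw [hy' _ (Finset.mem_range.2 hc.1) _ (Finset.mem_range.2 hm)]
    · rw [hc.2 m (not_lt.1 hm), mul_zero, mul_zero]
  obtain ⟨W, hW⟩ := exists_dense_rep hG
  choose s s0 hs using hl
  refine baire_lemma (C := S ⁻¹' ⋃ j, H j) (fun y hy => ?_)
    (F := fun n j => ⋂ N, {y | edist ((S y).pow N) ((W j).mul ((T.pow N).mul (W j).inv)) ≤
      s n + s n}) (fun n j => isClosed_iInter fun N => isClosed_le (Continuous.edist ?_
        continuous_const) continuous_const) (fun n y hy => ?_) (fun n j m y h1 h2 => ?_)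
    (fun j => (hH j).preimage Sc) Set.preimage_iUnion
  · rw [← hEq]
    have fs : ∀ x (v : ℕ → ZMod 2), HasFiniteSupport fun m => y (ρ x) m * v m := fun x v =>
      (hy (ρ x)).subset fun m hm => left_ne_zero_of_mul hm
    let ω : X → ZMod 2 := fun x => ∑ᶠ m, y (ρ x) m * w m x
    have ωσ : ∀ x, ω (σ.toFun x) = ω x := fun x => by simp only [ω, ρσ, wσ]
    refine ⟨tw σ σσ ω (mf y w hw) ωσ, Eventually.of_forall fun x => ?_⟩
    change T.toFun (pw2 σ.toFun (a y x) x) = pw2 σ.toFun (ω (T.toFun (pw2 σ.toFun (ω x) x)))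
      (T.toFun (pw2 σ.toFun (ω x) x))
    rw [← pw2_comm σT (ω x), pw2_inv ωσ, ← pw2_add σσ, pw2_comm σT]
    simp only [a, k, ω, ρT, CharTwo.sub_eq_add, mul_add, finsum_add_distrib (fs x _) (fs x _)]
  · exact (LipschitzWith.continuous (K := N) fun A B => edist_pow_le hG A B N).comp Sc
  · rw [← hEq] at hy
    obtain ⟨U, hU⟩ := hy
    obtain ⟨j, hj⟩ := hW U _ (s0 n)
    refine Set.mem_iUnion.2 ⟨j, Set.mem_iInter.2 fun N => ?_⟩
    have e1 : edist ((S y).pow N) (U.mul ((T.pow N).mul U.inv)) = 0 := by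
      have := edist_pow_le hG (S y) (U.mul (T.mul U.inv)) N
      rw [show edist (S y) (U.mul (T.mul U.inv)) = 0 from hU, mul_zero, nonpos_iff_eq_zero] at this
      refine (congrArg μ (Set.ext fun x => not_congr (Eq.congr_right ?_))).trans this
      rw [pow_apply]
      change U.toFun ((T.pow N).toFun (U.toFun.symm x)) = _
      rw [pow_apply, (Semiconj.iterate_right (f := U.toFun) (ga := T.toFun)
        (gb := (U.mul (T.mul U.inv)).toFun) (fun z => congrArg (U.toFun ∘ T.toFun)
          (U.toFun.symm_apply_apply z).symm) N).eq, MeasurableEquiv.apply_symm_apply]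
    have e2 : edist U (W j) ≤ s n := (edist_comm _ _).trans_le hj.le
    refine (edist_triangle _ (U.mul ((T.pow N).mul U.inv)) _).trans ?_
    rw [e1, zero_add]
    refine (edist_mul_le hG _ _ _ _).trans (add_le_add e2 ((edist_mul_le hG _ _ _ _).trans ?_))
    rw [edist_self, zero_add]
    exact (edist_inv_le hG _ _).trans e2
  · obtain ⟨N, hN⟩ := hs n m
    refine hN.not_ge (le_trans (measure_mono_ae ?_) ((edist_triangle_right _ _ _).trans
      (add_le_add (Set.mem_iInter.1 h1 N) (Set.mem_iInter.1 h2 N))))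
    filter_upwards [ae_all_iff.2 fun i => ((T.mp hG).iterate i).quasiMeasurePreserving.ae kf]
      with x hx h
    have ρi : ∀ i, ρ (T.toFun^[i] x) = n := fun i =>
      (congrFun (iterate_invariant (funext ρT) i) x).trans h.1
    have e1 : ∀ i, a (y + Pi.single n (Pi.single m 1)) (T.toFun^[i] x) =
        a y (T.toFun^[i] x) + (w m (T.toFun^[i + 1] x) - w m (T.toFun^[i] x)) := fun i => by
      have fs : ∀ v : ℕ → ZMod 2, HasFiniteSupport fun m => v m * k m (T.toFun^[i] x) := fun v =>
        (hx i).subset fun m hm => right_ne_zero_of_mul hm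
      simp only [a, ρi, Pi.add_apply, Pi.single_eq_same, add_mul, finsum_add_distrib (fs _) (fs _)]
      rw [finsum_eq_single (fun m' => Pi.single (M := fun _ => ZMod 2) m 1 m' * k m' (T.toFun^[i] x))
        m fun m' hm' => by simp [hm'], iterate_succ_apply']
      simp [k]
    intro e
    rw [pow_apply, pow_apply, Sit, Sit, Finset.sum_congr rfl fun i _ => e1 i,
      Finset.sum_add_distrib, Finset.sum_range_sub fun i => w m (T.toFun^[i] x)] at e
    exact h.2.1 (T.toFun.injective.iterate N
      (((Commute.iterate_right σT N).eq x).symm.trans (pw2_fix e (sub_ne_zero.2 h.2.2))))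

end Pool.Agent.P.MP_190226_lc.Sim
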