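import Mathlib
import Pool.Agent.P.MP_190226_lc.Sim.Low

/-! Construction of the combinatorial data from an ergodic transformation. -/

set_option autoImplicit false
set_option linter.unusedSectionVars false

open MeasureTheory Filter Topology Function
open scoped ENNReal

namespace Pool.Agent.P.MP_190226_lc.Sim

variable {X : Type*} [MeasurableSpace X] {μ : Measure X} {G : Subgroup (Equiv.Perm X)}

theorem meas_sInf {s : ℕ → Set X} (hs : ∀ j, MeasurableSet (s j)) :
    Measurable fun x => sInf {j | x ∈ s j} := by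
  classical
  have h : ∀ x, ∃ j, x ∈ s j ∨ ∀ i, x ∉ s i := fun x => by
    by_contra hc
    simp only [not_exists, not_or, not_forall, not_not] at hc
    exact let ⟨i, hi⟩ := (hc 0).2; (hc i).1 hi
  have : (fun x => sInf {j | x ∈ s j}) = fun x => Nat.find (h x) := funext fun x => by
    rcases Set.eq_empty_or_nonempty {j | x ∈ s j} with e | e
    · rw [e, Nat.sInf_empty, eq_comm, Nat.find_eq_zero]
      exact Or.inr (Set.eq_empty_iff_forall_notMem.1 e)
    · exact ((Nat.find_eq_iff _).2 ⟨Or.inl (Nat.sInf_mem e), fun i hi h =>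
        h.elim (Nat.notMem_of_lt_sInf hi) fun h' => h' _ (Nat.sInf_mem e)⟩).symm
  rw [this]
  exact measurable_find h fun j => by measurability

/-- An almost invariant function which is flipped by a power. -/
theorem tower [IsProbabilityMeasure μ] {T σ : X → X} (hT : MeasurePreserving T μ μ) {K : Set X}
    (hK : MeasurableSet K) (σT : ∀ x, σ (T x) = T (σ x)) (σK : ∀ x, σ x ∈ K ↔ x ∈ K) {M : ℕ}
    (hM : 0 < M) : ∃ w : X → ZMod 2, Measurable w ∧ (∀ x, w (σ x) = w x) ∧
      μ {x | w (T x) ≠ w x} ≤ μ K + (M : ℝ≥0∞)⁻¹ ∧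
      ∀ x, (∃ j, T^[j] x ∈ K) → (∀ i < M, T^[i] x ∉ K) → w (T^[M] x) ≠ w x := by
  let τ : X → ℕ := fun x => sInf {j | x ∈ T^[j] ⁻¹' K}
  have hτ : Measurable τ := meas_sInf fun j => hT.measurable.iterate j hK
  have sh : ∀ i x, i ≤ τ x → τ (T^[i] x) + i = τ x := fun i x h => by
    simpa only [τ, Set.mem_preimage, iterate_add_apply] using
      Nat.sInf_add (p := fun j => T^[j] x ∈ K) h
  refine ⟨fun x => (τ x / M : ℕ), (measurable_from_top (f := fun n : ℕ =>
    ((n / M : ℕ) : ZMod 2))).comp hτ, fun x => ?_, ?_, fun x h1 h2 e => ?_⟩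
  · simp only [τ, Set.mem_preimage, ← (Commute.iterate_right σT _).eq x, σK]
  · refine le_trans (measure_mono (t := K ∪ {x | 0 < τ x ∧ M ∣ τ x}) fun x hx => ?_)
      ((measure_union_le _ _).trans (add_le_add le_rfl ?_))
    · rcases (τ x).eq_zero_or_pos with h | h
      · rcases Nat.sInf_eq_zero.1 h with h1 | h1
        · exact Or.inl h1
        · refine absurd ?_ hx
          beta_reduce
          rw [h, show τ (T x) = 0 from Nat.sInf_eq_zero.2 (Or.inr (Set.eq_empty_iff_forall_notMem.2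
            fun j hj => Set.eq_empty_iff_forall_notMem.1 h1 (j + 1) hj))]
      · refine Or.inr ⟨h, by_contra fun hd => hx ?_⟩
        beta_reduce
        rw [← sh 1 x h] at hd ⊢
        rw [Nat.succ_div, if_neg hd]; rfl
    · let E : ℕ → Set X := fun i => {x | M ∣ τ x + i}
      have hE : ∀ i, MeasurableSet (E i) := fun i =>
        hτ (MeasurableSet.of_discrete (s := {n | M ∣ n + i}))
      have h1 := sum_measure_le_measure_univ (μ := μ) (s := Finset.range M)
        (fun i _ => (hE i).nullMeasurableSet) fun i hi j hj hij => Disjoint.aedisjoint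
          (Set.disjoint_left.2 fun x h h' => hij (Nat.ModEq.eq_of_lt_of_lt
            (Nat.ModEq.add_left_cancel' (τ x) ((Nat.modEq_zero_iff_dvd.2 h).trans
              (Nat.modEq_zero_iff_dvd.2 h').symm)) (Finset.mem_range.1 hi) (Finset.mem_range.1 hj)))
      rw [ENNReal.le_inv_iff_mul_le, ← measure_univ (μ := μ)]
      refine le_trans ?_ h1
      refine le_trans (by rw [mul_comm, Finset.card_range, nsmul_eq_mul])
        (Finset.card_nsmul_le_sum _ _ (μ {x | 0 < τ x ∧ M ∣ τ x}) fun i hi =>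
          le_trans (measure_mono fun x hx => ?_) ((hT.iterate i).measure_preimage_le _))
      exact hx.2.trans (dvd_of_eq
        (sh i x ((Finset.mem_range.1 hi).le.trans (Nat.le_of_dvd hx.1 hx.2))).symm)
  · have h3 := sh M x (not_lt.1 fun h => h2 _ h (Nat.sInf_mem h1))
    beta_reduce at e
    rw [← h3, Nat.add_div_right _ hM] at e
    simp at e

variable [StandardBorelSpace X] [IsProbabilityMeasure μ]

theorem small [NullSingletonClass μ] {A : Set X} (hA : MeasurableSet A) (h0 : μ A ≠ 0) {ε : ℝ≥0∞}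
    (hε : 0 < ε) : ∃ K ⊆ A, MeasurableSet K ∧ μ K ≠ 0 ∧ μ K < ε := by
  let := upgradeStandardBorel X
  obtain ⟨x, hx⟩ := Measure.nonempty_support (μ := μ.restrict A) (by simpa using h0)
  obtain ⟨U, h1, h2, h3⟩ := Set.exists_isOpen_lt_of_lt (μ := μ) {x} ε (by simpa using hε)
  have := (Measure.mem_support_iff_forall x).1 hx U (h2.mem_nhds (h1 rfl))
  rw [Measure.restrict_apply h2.measurableSet] at this
  exact ⟨U ∩ A, Set.inter_subset_right, h2.measurableSet.inter hA, this.ne',
    (measure_mono Set.inter_subset_left).trans_lt h3⟩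

theorem hit {T : X → X} (hT : Ergodic T μ) {A : Set X} (hA : MeasurableSet A) (h0 : μ A ≠ 0) :
    ∀ᵐ x ∂μ, ∃ k, T^[k + 1] x ∈ A := by
  rcases hT.ae_empty_or_univ_of_preimage_ae_le (s := ⋃ k, T^[k + 1] ⁻¹' A)
    (MeasurableSet.iUnion fun k => hT.measurable.iterate _ hA).nullMeasurableSet
    (LE.le.eventuallyLE fun x hx => let ⟨k, hk⟩ := Set.mem_iUnion.1 hx
      Set.mem_iUnion.2 ⟨k + 1, hk⟩) with h | h
  · refine absurd ?_ h0
    rw [← (hT.toMeasurePreserving.iterate 1).measure_preimage hA.nullMeasurableSet]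
    exact measure_mono_null (Set.subset_iUnion (fun k => T^[k + 1] ⁻¹' A) 0) (ae_eq_empty.1 h)
  · filter_upwards [h] with x hx
    exact Set.mem_iUnion.1 (hx.mpr trivial)

/-- Infinitely many disjoint sets which are disjoint from their images. -/
theorem exists_labels [NullSingletonClass μ] {T : X → X} (hT : Ergodic T μ) :
    ∃ b : X → ℕ, Measurable b ∧ (∀ n, μ {x | b x = n + 1} ≠ 0) ∧ ∀ x, b x ≠ 0 → b (T x) = 0 := by
  obtain ⟨K, -, K1, K2, K3⟩ := small (μ := μ) MeasurableSet.univ (by simp) one_pos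
  have hB : μ (K \ T ⁻¹' K) ≠ 0 := fun h => by
    rcases hT.ae_empty_or_univ_of_ae_le_preimage K1.nullMeasurableSet (ae_le_set.2 h) with h | h
    · exact K2 (ae_eq_empty.1 h)
    · simp [measure_congr h] at K3
  choose f f1 f2 f3 f4 using fun A : {A : Set X // MeasurableSet A ∧ μ A ≠ 0} =>
    small A.2.1 A.2.2 (pos_iff_ne_zero.2 A.2.2)
  let C : ℕ → {A : Set X // MeasurableSet A ∧ μ A ≠ 0} := fun n =>
    Nat.rec ⟨_, K1.diff (hT.measurable K1), hB⟩ (fun _ A => ⟨f A, f2 A, f3 A⟩) n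
  have hC : Antitone fun n => (C n).1 := antitone_nat_of_succ_le fun n => f1 (C n)
  refine ⟨fun x => sInf {j | x ∈ (C j).1ᶜ}, meas_sInf fun j => (C j).2.1.compl, fun n h => ?_,
    fun x hx => Nat.sInf_eq_zero.2 (Or.inl fun h => ?_)⟩
  · refine (f4 (C n)).not_ge (measure_mono_ae (ae_le_set.2 (measure_mono_null (fun x hx => ?_) h)))
    exact le_antisymm (Nat.sInf_le hx.2) (le_csInf ⟨n + 1, hx.2⟩ fun j hj =>
      not_le.1 fun h => hj (hC h hx.1))
  · exact hx (Nat.sInf_eq_zero.2 (Or.inl fun h' => h'.2 h.1))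

/-- The first return to the colour of the starting point. -/
def Ret (T : X → X) (c : X → ℕ × ℕ) (x y : X) : Prop :=
  ∃ k, y = T^[k + 1] x ∧ c y = c x ∧ ∀ i < k, c (T^[i + 1] x) ≠ c x

variable [Countable G] (hG : ∀ g ∈ G, MeasurePreserving g μ μ) {T₀ : Equiv.Perm X} (h0 : T₀ ∈ G)
  (hT : Ergodic T₀ μ)
include hG h0 hT

theorem ret_pc {c : X → ℕ × ℕ} (hc : Measurable c) :
    PC G (fun _ => id) (fun _ => id) (Ret T₀ c) ∧ μ {x | ¬∃ y, Ret T₀ c x y} = 0 := by
  classical
  have m := hT.measurable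
  refine ⟨⟨?_, ?_, ?_, ?_, fun _ _ _ h => h⟩, ?_⟩
  · rintro x _ ⟨k, rfl, -⟩
    exact ⟨T₀ ^ (k + 1), pow_mem h0 _, by rw [Equiv.Perm.coe_pow]⟩
  · rintro x _ _ ⟨k, rfl, a, b⟩ ⟨l, rfl, a', b'⟩
    rw [le_antisymm (not_lt.1 fun h => b _ h a') (not_lt.1 fun h => b' _ h a)]
  · have key : ∀ x x' k l, k ≤ l → T₀^[k + 1] x = T₀^[l + 1] x' → c x = c x' →
        (∀ i < l, c (T₀^[i + 1] x') ≠ c x') → x = x' := fun x x' k l h e a b => by
      obtain ⟨d, rfl⟩ := Nat.exists_eq_add_of_le h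
      rw [add_right_comm, iterate_add_apply _ (k + 1)] at e
      obtain rfl := T₀.injective.iterate _ e
      cases d with
      | zero => rfl
      | succ d => exact absurd a (b d (by omega))
    rintro x x' _ ⟨k, rfl, a, b⟩ ⟨l, e, a', b'⟩
    rcases le_total k l with h | h
    exacts [key _ _ _ _ h e (a.symm.trans a') b', (key _ _ _ _ h e.symm (a'.symm.trans a) b).symm]
  · rw [MR]
    simp only [Ret, Set.ofPred_exists]
    refine MeasurableSet.iUnion fun k => MeasurableSet.inter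
      (measurableSet_eq_fun measurable_snd ((m.iterate _).comp measurable_fst))
      (MeasurableSet.inter (measurableSet_eq_fun (hc.comp measurable_snd) (hc.comp measurable_fst))
        (?_ : MeasurableSet {p : X × X | ∀ i < k, c (T₀^[i + 1] p.1) ≠ c p.1}))
    simp only [Set.ofPred_forall]
    exact MeasurableSet.iInter fun i => MeasurableSet.iInter fun _ => (measurableSet_eq_fun
      (hc.comp ((m.iterate _).comp measurable_fst)) (hc.comp measurable_fst)).compl
  · have : ∀ a, ∀ᵐ x ∂μ, c x = a → ∃ k, c (T₀^[k + 1] x) = a := fun a => by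
      by_cases h : μ (c ⁻¹' {a}) = 0
      · filter_upwards [measure_eq_zero_iff_ae_notMem.1 h] with x hx hx' using absurd hx' hx
      · filter_upwards [hit hT (hc (measurableSet_singleton a)) h] with x hx _ using hx
    filter_upwards [ae_all_iff.2 this] with x hx
    exact ⟨_, Nat.find (hx _ rfl), rfl, Nat.find_spec (hx _ rfl), fun i => Nat.find_min _⟩

theorem exists_class [NullSingletonClass μ] : ∃ T : FullRep μ G, ∀ H : ℕ → Set (FullRep μ G),
    (∀ j, IsGδ (H j)) →
    {S : FullRep μ G | ∃ U : FullRep μ G, S.toFun =ᵐ[μ] U.toFun ∘ T.toFun ∘ U.toFun.symm} ≠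
      ⋃ j, H j := by
  classical
  obtain ⟨b, bm, b0, bT⟩ := exists_labels hT
  have m := hT.measurable
  have m' : Measurable T₀.symm := (hG _ (inv_mem h0)).measurable
  have bT' : ∀ x, b x ≠ 0 → b (T₀.symm x) = 0 := fun x hx => by
    by_contra h; exact hx (by simpa using bT _ h)
  let c : X → ℕ × ℕ := fun x => (b x, b (T₀.symm x))
  obtain ⟨hR, hfull⟩ := ret_pc hG h0 hT (c := c) (bm.prodMk (bm.comp m'))
  obtain ⟨T, A, A1, A2, A3, A4⟩ := exists_rep hG hR hfull
  let s : X → X := fun x => if b x ≠ 0 then T₀ x else if b (T₀.symm x) ≠ 0 then T₀.symm x else x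
  have s1 : ∀ x, b x ≠ 0 → s x = T₀ x := fun x h => if_pos h
  have ss : Involutive s := fun x => by
    by_cases h : b x = 0
    · by_cases h' : b (T₀.symm x) = 0 <;> simp [s, h, h']
    · simp [s, h, bT x h]
  have sm : Measurable s := Measurable.ite (bm (measurableSet_singleton 0).compl) m
    (Measurable.ite ((bm.comp m') (measurableSet_singleton 0).compl) m' measurable_id)
  have so : ∀ x, Orb G x (s x) := fun x => by
    simp only [s]
    split_ifs
    exacts [⟨_, h0, rfl⟩, ⟨_, inv_mem h0, rfl⟩, Orb.refl x]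
  let σ : FullRep μ G := ⟨⟨ss.toPerm, sm, sm⟩, so⟩
  have cT : ∀ x, c (T.toFun x) = c x := fun x => by
    by_cases hx : x ∈ A
    · exact (A3 x hx).choose_spec.2.1
    · rw [A4 x hx]
  have cT' : ∀ i x, b (T.toFun^[i] x) = b x := fun i x =>
    congrFun (iterate_invariant (g := b) (funext fun x => congrArg Prod.fst (cT x)) i) x
  have c1 : ∀ x ∈ A, b x ≠ 0 → s (T.toFun x) = T.toFun (s x) := fun x hx h => by
    have e : ∀ z, c (T₀ z) = c (T₀ x) ↔ c z = c x := fun z => by
      simp only [c, Equiv.symm_apply_apply, Prod.mk.injEq, bT x h, bT' x h]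
      exact ⟨fun a => ⟨a.2, bT' z (a.2 ▸ h)⟩, fun a => ⟨bT z (a.1 ▸ h), a.1⟩⟩
    obtain ⟨k, k1, k2, k3⟩ := A3 x hx
    rw [s1 (T.toFun x) ((cT' 1 x).trans_ne h), s1 x h]
    refine hR.fn _ _ _ ⟨k, by rw [k1, ← iterate_succ_apply, iterate_succ_apply' _ (k + 1)],
      (e _).2 k2, fun i hi a => k3 i hi ((e _).1 ?_)⟩ (A3 _ (A2 _ _ hx ⟨_, h0, rfl⟩))
    rwa [← iterate_succ_apply, iterate_succ_apply' _ (i + 1)] at a
  have sT : ∀ x, s (T.toFun x) = T.toFun (s x) := fun x => by
    by_cases hx : x ∈ A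
    · by_cases h : b x = 0
      · by_cases h' : b (T₀.symm x) = 0
        · have := cT x
          simp only [c, Prod.mk.injEq] at this
          simp [s, h, h', this]
        · have e : s x = T₀.symm x := by simp [s, h, h']
          rw [← ss (T.toFun (s x)), c1 _ (A2 _ _ hx (so x)) (e ▸ h'), ss]
      · exact c1 x hx h
    · rw [A4 x hx, A4 _ fun h => hx (A2 _ _ h (so x).symm)]
  have reach : ∀ k, ∀ x ∈ A, c (T₀^[k] x) = c x → ∃ j, T.toFun^[j] x = T₀^[k] x := fun k => by
    induction k using Nat.strong_induction_on with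
    | _ k ih =>
      intro x hx e
      cases k with
      | zero => exact ⟨0, rfl⟩
      | succ k =>
        obtain ⟨l, l1, l2, l3⟩ := A3 x hx
        obtain ⟨d, rfl⟩ := Nat.exists_eq_add_of_le' (not_lt.1 fun h => l3 k h e)
        rw [add_assoc, iterate_add_apply, ← l1] at e ⊢
        obtain ⟨j, hj⟩ := ih d (by omega) _ (A2 _ _ hx (T.orb x)) (e.trans l2.symm)
        exact ⟨j + 1, hj⟩
  have p2 : ∀ m : ℕ, (0 : ℝ≥0∞) < 2⁻¹ ^ m := fun m => ENNReal.pow_pos (by norm_num) m
  have sp : ∀ n, 0 < μ {x | b x = n + 1} / 5 / 2 := fun n =>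
    ENNReal.div_pos (ENNReal.div_pos (b0 n) (by norm_num)).ne' (by norm_num)
  choose K K1 K2 K3 K4 using fun n m : ℕ => small (bm (measurableSet_singleton (n + 1))) (b0 n)
    (lt_min (ENNReal.mul_pos (wt_ne n) (p2 m).ne') (ENNReal.mul_pos (sp n).ne' (p2 m).ne'))
  choose w w1 w2 w3 w4 using fun m : ℕ => tower (T.mp hG) (σ := s)
    (K := (⋃ n, K n m) ∪ s ⁻¹' ⋃ n, K n m) ((MeasurableSet.iUnion fun n => K2 n m).union
      (sm (MeasurableSet.iUnion fun n => K2 n m))) sT
    (fun x => by simp only [Set.mem_union, Set.mem_preimage, ss x, or_comm]) (Nat.two_pow_pos m)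
  refine ⟨T, fun H hH => not_gdelta_sigma hG T σ (fun x => (c x).1 + (c x).2 - 1) w
    ((bm.add (bm.comp m')).sub_const 1) w1 ss sT (fun x => by rw [cT]) (fun x => ?_) w2 ?_
    (fun n => ⟨_, sp n, fun m => ⟨2 ^ m, ?_⟩⟩) hH⟩
  · change b (s x) + b (T₀.symm (s x)) - 1 = b x + b (T₀.symm x) - 1
    by_cases h : b x = 0
    · by_cases h' : b (T₀.symm x) = 0
      · simp [s, h, h']
      · simp [s, h, h', bT' _ h']
    · simp [s, h, bT x h, bT' x h]
  · have hU : ∀ m, μ (⋃ n, K n m) ≤ 2⁻¹ ^ m := fun m => (measure_iUnion_le _).trans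
      ((ENNReal.tsum_le_tsum fun n => ((K4 n m).trans_le (min_le_left _ _)).le).trans_eq
        (by rw [ENNReal.tsum_mul_right, tsum_wt, one_mul]))
    refine ne_top_of_le_ne_top ?_ (ENNReal.tsum_le_tsum (g := fun m => (2⁻¹ ^ m + 2⁻¹ ^ m) + 2⁻¹ ^ m)
      fun m => (w3 m).trans (add_le_add ((measure_union_le _ _).trans (add_le_add (hU m)
        (((σ.mp hG).measure_preimage_le _).trans (hU m)))) (by simp [ENNReal.inv_pow])))
    simp [ENNReal.tsum_add, ENNReal.tsum_geometric]
  · set r := μ {x | b x = n + 1} / 5 / 2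
    set Z := {x | (c x).1 + (c x).2 - 1 = n ∧ σ.toFun x ≠ x ∧ w m (T.toFun^[2 ^ m] x) ≠ w m x}
    have e1 : μ {x | b x = n + 1} ≤ μ (Z ∪ ⋃ i ∈ Finset.range (2 ^ m), T.toFun^[i] ⁻¹' K n m) := by
      refine measure_mono_ae ?_
      filter_upwards [A1, hit hT (K2 n m) (K3 n m)] with x hx ⟨k, hk⟩ (hb : b x = n + 1)
      have hb' : b x ≠ 0 := by omega
      refine or_iff_not_imp_right.2 fun hn => ⟨by simp [c, hb, bT' x hb'], fun e => hb' ?_,
        w4 m x ?_ fun i hi h => ?_⟩
      · rw [← show T₀ x = x from (s1 x hb').symm.trans e, bT x hb']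
      · have e : b (T₀^[k + 1] x) = n + 1 := K1 n m hk
        obtain ⟨j, hj⟩ := reach (k + 1) x hx (Prod.ext (e.trans hb.symm)
          ((bT' _ (by omega)).trans (bT' _ hb').symm))
        exact ⟨j, Or.inl (Set.mem_iUnion.2 ⟨n, hj ▸ hk⟩)⟩
      · have e := (cT' i x).trans hb
        rcases h with h | h <;> obtain ⟨l, hl⟩ := Set.mem_iUnion.1 h <;>
          have e' : b _ = l + 1 := K1 l m hl
        · obtain rfl : l = n := by omega
          exact hn (Set.mem_biUnion (Finset.mem_range.2 hi) hl)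
        · rw [s1 _ (by omega), bT _ (by omega)] at e'
          omega
    have e2 : μ (⋃ i ∈ Finset.range (2 ^ m), T.toFun^[i] ⁻¹' K n m) ≤ r := by
      refine (measure_biUnion_finset_le _ _).trans ((Finset.sum_le_card_nsmul _ _ _ fun i _ =>
        (((T.mp hG).iterate i).measure_preimage_le _).trans
          ((K4 n m).trans_le (min_le_right _ _)).le).trans_eq ?_)
      rw [Finset.card_range, nsmul_eq_mul, mul_left_comm, Nat.cast_pow, ← mul_pow, Nat.cast_ofNat,
        ENNReal.mul_inv_cancel (by norm_num) (by norm_num), one_pow, mul_one]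
    by_contra hn
    have e3 := e1.trans ((measure_union_le _ _).trans (add_le_add (not_lt.1 hn) e2))
    refine (ENNReal.half_lt_self (b0 n) (measure_ne_top _ _)).not_ge (e3.trans_eq ?_)
    rw [show r + r + (r + r) + r = 5 * r by ring, div_eq_mul_inv _ (2 : ℝ≥0∞),
      show r = μ {x | b x = n + 1} / 5 * 2⁻¹ from rfl, ← mul_assoc,
      ENNReal.mul_div_cancel (by norm_num) (by norm_num)]

theorem conjRel_ne [NullSingletonClass μ] (ι : Type*) [Nonempty ι]
    {H : ℕ → Set ((ι → FullGroup μ G) × (ι → FullGroup μ G))} (hH : ∀ j, IsGδ (H j)) :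
    conjRel μ G ι ≠ ⋃ j, H j := by
  intro e
  obtain ⟨T, h⟩ := exists_class hG h0 hT
  let φ : FullRep μ G → (ι → FullGroup μ G) × (ι → FullGroup μ G) := fun S =>
    (fun _ => SeparationQuotient.mk S, fun _ => SeparationQuotient.mk T)
  refine h (fun j => φ ⁻¹' H j) (fun j => (hH j).preimage (by fun_prop)) ?_
  rw [← Set.preimage_iUnion, ← e]
  have hae : ∀ S S' : FullRep μ G, (SeparationQuotient.mk S : FullGroup μ G) =
      SeparationQuotient.mk S' → S.toFun =ᵐ[μ] S'.toFun := fun S S' h =>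
    EMetric.inseparable_iff.mp (SeparationQuotient.mk_eq_mk.mp h)
  obtain ⟨i⟩ := ‹Nonempty ι›
  ext S
  refine ⟨fun ⟨U, hU⟩ => ⟨fun _ => S, fun _ => T, U, fun _ => ⟨rfl, rfl, hU⟩⟩,
    fun ⟨S', T', U, h⟩ => ⟨U, (hae _ _ (h i).1).trans ((h i).2.2.trans ?_)⟩⟩
  filter_upwards [(U.inv.mp hG).quasiMeasurePreserving.ae (hae _ _ (h i).2.1)] with x hx
  exact congrArg U.toFun hx.symm

end Pool.Agent.P.MP_190226_lc.Sim
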